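import Pool.Agent.Lib.ALL_h7.OneRoot
import Pool.Agent.Lib.TAO.Basic

/-!
# The one root lemma for valuations with values in an ordered field
-/

set_option autoImplicit false

open Polynomial

namespace Pool.Agent.ALL7

open Pool.Agent.TAO (OVal VPos)

section

variable {𝕂 : Type*} [Field 𝕂] [LinearOrder 𝕂] [IsStrictOrderedRing 𝕂] {M : Type*} [Field M]

/-- The multiplicative form of a value. -/
noncomputable def ev (c : 𝕂) : WithZero (Multiplicative 𝕂) :=
  ((Multiplicative.ofAdd (-c) : Multiplicative 𝕂) : WithZero (Multiplicative 𝕂))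

theorem ev_ne (c : 𝕂) : ev c ≠ 0 := WithZero.coe_ne_zero

theorem ev_mul (c d : 𝕂) : ev c * ev d = ev (c + d) := by
  unfold ev
  rw [← WithZero.coe_mul, ← ofAdd_add, neg_add]

theorem ev_zero : ev (0 : 𝕂) = 1 := by
  unfold ev
  rw [neg_zero, ofAdd_zero, WithZero.coe_one]

theorem ev_pow (c : 𝕂) (n : ℕ) : ev c ^ n = ev (n * c) := by
  induction n with
  | zero => rw [pow_zero, Nat.cast_zero, zero_mul, ev_zero]
  | succ n ih => rw [pow_succ, ih, ev_mul]; congr 1; push_cast; ring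

theorem ev_le_iff {c d : 𝕂} : ev c ≤ ev d ↔ d ≤ c := by
  unfold ev
  rw [WithZero.coe_le_coe, Multiplicative.ofAdd_le]
  exact neg_le_neg_iff

theorem ev_lt_iff {c d : 𝕂} : ev c < ev d ↔ d < c := by
  unfold ev
  rw [WithZero.coe_lt_coe, Multiplicative.ofAdd_lt]
  exact neg_lt_neg_iff

open Classical in
/-- An `OVal` as a `Valuation`. -/
noncomputable def toVal (v : OVal 𝕂 M) : Valuation M (WithZero (Multiplicative 𝕂)) where
  toFun x := if x = 0 then 0 else ev (v x)
  map_zero' := if_pos rfl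
  map_one' := by
    rw [if_neg one_ne_zero, v.map_one, ev_zero]
  map_mul' x y := by
    by_cases hx : x = 0
    · rw [if_pos hx, hx, zero_mul, if_pos rfl, zero_mul]
    by_cases hy : y = 0
    · rw [if_pos hy, hy, mul_zero, if_pos rfl, mul_zero]
    rw [if_neg hx, if_neg hy, if_neg (mul_ne_zero hx hy), v.map_mul hx hy, ev_mul]
  map_add_le_max' x y := by
    by_cases hx : x = 0
    · rw [hx, zero_add]; exact le_max_right _ _
    by_cases hy : y = 0
    · rw [hy, add_zero]; exact le_max_left _ _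
    by_cases hxy : x + y = 0
    · rw [if_pos hxy]; exact zero_le
    rw [if_neg hx, if_neg hy, if_neg hxy]
    rcases le_total (v x) (v y) with h | h
    · refine le_trans ?_ (le_max_left _ _)
      rw [ev_le_iff]
      have := v.map_add hx hy hxy
      rwa [min_eq_left h] at this
    · refine le_trans ?_ (le_max_right _ _)
      rw [ev_le_iff]
      have := v.map_add hx hy hxy
      rwa [min_eq_right h] at this

theorem toVal_zero (v : OVal 𝕂 M) : toVal v 0 = 0 := map_zero _

theorem toVal_ne (v : OVal 𝕂 M) {x : M} (hx : x ≠ 0) : toVal v x = ev (v x) := if_neg hx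

theorem toVal_le_one (v : OVal 𝕂 M) {x : M} : toVal v x ≤ 1 ↔ v.Ge 0 x := by
  by_cases hx : x = 0
  · rw [hx, toVal_zero]
    exact ⟨fun _ => OVal.Ge.zero, fun _ => zero_le⟩
  rw [toVal_ne v hx, ← ev_zero, ev_le_iff]
  exact ⟨fun h _ => h, fun h => h hx⟩

theorem toVal_lt_one (v : OVal 𝕂 M) {x : M} : toVal v x < 1 ↔ VPos v x := by
  by_cases hx : x = 0
  · rw [hx, toVal_zero]
    exact ⟨fun _ => VPos.zero, fun _ => zero_lt_one⟩
  rw [toVal_ne v hx, ← ev_zero, ev_lt_iff]
  exact ⟨fun h _ => h, fun h => h hx⟩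

theorem toVal_eq_one (v : OVal 𝕂 M) {x : M} (hx : x ≠ 0) (h : v x = 0) : toVal v x = 1 := by
  rw [toVal_ne v hx, h, ev_zero]

/-- **One root lemma** for `OVal`: `ψ` in the henselization of `L`, `β` a radius. There is a
polynomial `N` over `L` with `N(ψ + X) = N₁ X +` terms of value `> v N₁ + β` at radius `β`. -/
theorem one_rootO {L : Type*} [Field L] [Algebra L M] [IsAlgClosed M] [Infinite L]
    (v : OVal 𝕂 M) {P : L[X]} (hP : P.Monic) (hPO : ∀ i, v.Ge 0 (algebraMap L M (P.coeff i)))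
    (h0 : VPos v (algebraMap L M (P.coeff 0))) (h1 : P.coeff 1 ≠ 0)
    (h1' : v (algebraMap L M (P.coeff 1)) = 0) {τ : M} (hτ : aeval τ P = 0) (hτ1 : VPos v τ)
    {ψ : M} (hψ : ψ ∈ IntermediateField.adjoin L {τ}) (β : 𝕂) :
    ∃ N : L[X], (taylor ψ (N.map (algebraMap L M))).coeff 1 ≠ 0 ∧
      ((taylor ψ (N.map (algebraMap L M))).coeff 0 ≠ 0 →
        v ((taylor ψ (N.map (algebraMap L M))).coeff 1) + β <
          v ((taylor ψ (N.map (algebraMap L M))).coeff 0)) ∧
      ∀ j, 2 ≤ j → (taylor ψ (N.map (algebraMap L M))).coeff j ≠ 0 →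
        v ((taylor ψ (N.map (algebraMap L M))).coeff 1) + β <
          v ((taylor ψ (N.map (algebraMap L M))).coeff j) + j * β := by
  have h1a : algebraMap L M (P.coeff 1) ≠ 0 := by
    rw [Ne, map_eq_zero]; exact h1
  obtain ⟨N, hN1, hN0, hNj⟩ := one_root (toVal v) hP (fun i => (toVal_le_one v).mpr (hPO i))
    ((toVal_lt_one v).mpr h0) (toVal_eq_one v h1a h1') hτ ((toVal_lt_one v).mpr hτ1) hψ
    (ev_ne β)
  refine ⟨N, hN1, fun h => ?_, fun j hj h => ?_⟩
  · rw [toVal_ne v h, toVal_ne v hN1, ev_mul, ev_lt_iff] at hN0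
    exact hN0
  · have h2 := hNj j hj
    rw [toVal_ne v h, toVal_ne v hN1, ev_mul, ev_pow, ev_mul, ev_lt_iff] at h2
    exact h2

end

end Pool.Agent.ALL7
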