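import Pool.Agent.Lib.ALL_h7.Plus
import Pool.Agent.Lib.ALL_h7.OneRootO

/-!
# Elements of the henselization become monomials: valuations with values in an ordered field
-/

set_option autoImplicit false

open Polynomial

namespace Pool.Agent.ALL7

open Pool.Agent.TAO (OVal VPos)

section

variable {𝕂 : Type*} [Field 𝕂] [LinearOrder 𝕂] [IsStrictOrderedRing 𝕂] {M : Type*} [Field M]

/-- Closed under inverses of elements of value `0` and under simple residue roots. -/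
structure HClO (v : OVal 𝕂 M) (S : Subring M) : Prop where
  ge : ∀ x ∈ S, v.Ge 0 x
  inv : ∀ x ∈ S, x ≠ 0 → v x = 0 → x⁻¹ ∈ S
  root : ∀ G : M[X], (∀ i, G.coeff i ∈ S) → ∀ x : M, v.Ge 0 x → G.eval x = 0 →
    (derivative G).eval x ≠ 0 → v ((derivative G).eval x) = 0 → x ∈ S

theorem toVal_eq_one_iff (v : OVal 𝕂 M) {x : M} : toVal v x = 1 ↔ x ≠ 0 ∧ v x = 0 := by
  by_cases hx : x = 0
  · rw [hx, toVal_zero]
    exact ⟨fun h => absurd h zero_ne_one, fun h => absurd rfl h.1⟩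
  · refine ⟨fun h => ⟨hx, ?_⟩, fun h => toVal_eq_one v hx h.2⟩
    refine le_antisymm ?_ ((toVal_le_one v).mp h.le hx)
    rw [toVal_ne v hx, ← ev_zero] at h
    exact ev_le_iff.mp h.ge

theorem HClO.toHCl {v : OVal 𝕂 M} {S : Subring M} (h : HClO v S) : HCl (toVal v) S where
  le x hx := (toVal_le_one v).mpr (h.ge x hx)
  inv x hx h1 := by
    obtain ⟨h2, h3⟩ := (toVal_eq_one_iff v).mp h1
    exact h.inv x hx h2 h3
  root G hG x hx h0 h1 := by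
    obtain ⟨h2, h3⟩ := (toVal_eq_one_iff v).mp h1
    exact h.root G hG x ((toVal_le_one v).mp hx) h0 h2 h3

/-- **Elements of the henselization become monomials**, `OVal` form. -/
theorem mono_of_listO {L : Type*} [Field L] [Algebra L M] [IsAlgClosed M] [Infinite L]
    (v : OVal 𝕂 M) {P : L[X]} (hP : P.Monic) (hPO : ∀ i, v.Ge 0 (algebraMap L M (P.coeff i)))
    (h0 : VPos v (algebraMap L M (P.coeff 0))) (h1 : P.coeff 1 ≠ 0)
    (h1' : v (algebraMap L M (P.coeff 1)) = 0) {τ : M} (hτ : aeval τ P = 0) (hτ1 : VPos v τ)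
    {a : M} (ha : a ∈ IntermediateField.adjoin L {τ}) (ha0 : a ≠ 0) :
    ∃ Z : Finset L, (∀ z ∈ Z, z ≠ 0) ∧ ∀ (S : Subring M) (Γ : AddSubgroup 𝕂) (χ : 𝕂 → M),
      HClO v S → (∀ γ ∈ Γ, χ γ ≠ 0) → (∀ γ ∈ Γ, ∀ δ ∈ Γ, χ (γ + δ) = χ γ * χ δ) →
      (∀ γ ∈ Γ, v (χ γ) = γ) → (∀ γ ∈ Γ, 0 ≤ γ → χ γ ∈ S) →
      (∀ z ∈ Z, v (algebraMap L M z) ∈ Γ ∧
        algebraMap L M z / χ (v (algebraMap L M z)) ∈ S) →
      τ ∈ S ∧ v a ∈ Γ ∧ a / χ (v a) ∈ S := by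
  classical
  have h1a : algebraMap L M (P.coeff 1) ≠ 0 := by
    rw [Ne, map_eq_zero]; exact h1
  obtain ⟨Z, hZ0, hZ⟩ := mono_of_list (v := toVal v) hP (fun i => (toVal_le_one v).mpr (hPO i))
    ((toVal_lt_one v).mpr h0) (toVal_eq_one v h1a h1') hτ ((toVal_lt_one v).mpr hτ1) ha ha0
  refine ⟨Z, hZ0, fun S Γ χ hS hne hadd hval hmem hzm => ?_⟩
  have hχ0 : χ 0 = 1 := by
    have e1 := hadd 0 Γ.zero_mem 0 Γ.zero_mem
    rw [add_zero] at e1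
    have e2 := hne 0 Γ.zero_mem
    exact (mul_right_cancel₀ e2 (by rw [one_mul]; exact e1)).symm
  have hχinv : ∀ γ ∈ Γ, χ (-γ) = (χ γ)⁻¹ := by
    intro γ hγ
    have e1 := hadd γ hγ (-γ) (Γ.neg_mem hγ)
    rw [add_neg_cancel, hχ0] at e1
    exact eq_inv_of_mul_eq_one_right e1.symm
  obtain ⟨U, hU⟩ : ∃ U : Subgroup Mˣ, ∀ x : Mˣ, x ∈ U ↔ ∃ γ ∈ Γ, (x : M) = χ γ := by
    refine ⟨{ carrier := {x | ∃ γ ∈ Γ, (x : M) = χ γ}
              mul_mem' := ?_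
              one_mem' := ⟨0, Γ.zero_mem, by rw [hχ0, Units.val_one]⟩
              inv_mem' := ?_ }, fun x => Iff.rfl⟩
    · rintro x y ⟨γ, hγ, hx⟩ ⟨δ, hδ, hy⟩
      exact ⟨γ + δ, Γ.add_mem hγ hδ, by rw [Units.val_mul, hx, hy, hadd γ hγ δ hδ]⟩
    · rintro x ⟨γ, hγ, hx⟩
      exact ⟨-γ, Γ.neg_mem hγ, by rw [Units.val_inv_eq_inv_val, hx, hχinv γ hγ]⟩
  have hval' : ∀ x ∈ U, (toVal v) (x : M) ≤ 1 → (x : M) ∈ S := by
    intro x hx hle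
    obtain ⟨γ, hγ, hxγ⟩ := (hU x).mp hx
    have e1 := (toVal_le_one v).mp hle x.ne_zero
    rw [hxγ, hval γ hγ] at e1
    rw [hxγ]
    exact hmem γ hγ e1
  have hmono : ∀ z : M, z ≠ 0 → v z ∈ Γ → z / χ (v z) ∈ S → MonoX (toVal v) S U z := by
    intro z hz hzΓ hzS
    refine ⟨Units.mk0 _ (hne _ hzΓ), (hU _).mpr ⟨_, hzΓ, rfl⟩, ?_, ?_⟩
    · rw [Units.val_inv_eq_inv_val, Units.val_mk0, ← div_eq_mul_inv]; exact hzS
    · rw [Units.val_inv_eq_inv_val, Units.val_mk0, ← div_eq_mul_inv]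
      refine toVal_eq_one v (div_ne_zero hz (hne _ hzΓ)) ?_
      rw [v.map_div hz (hne _ hzΓ), hval _ hzΓ, sub_self]
  have hZU : ∀ z ∈ Z, MonoX (toVal v) S U (algebraMap L M z) := by
    intro z hz
    have hz0 : algebraMap L M z ≠ 0 := by rw [Ne, map_eq_zero]; exact hZ0 z hz
    exact hmono _ hz0 (hzm z hz).1 (hzm z hz).2
  obtain ⟨hτS, x, hx, hx1, hx2⟩ := hZ S U hS.toHCl hval' hZU
  obtain ⟨γ, hγ, hxγ⟩ := (hU x).mp hx
  have hva : v a = γ := by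
    obtain ⟨-, e1⟩ := (toVal_eq_one_iff v).mp hx2
    rw [Units.val_inv_eq_inv_val, hxγ, ← div_eq_mul_inv, v.map_div ha0 (hne γ hγ),
      hval γ hγ] at e1
    linarith
  refine ⟨hτS, by rw [hva]; exact hγ, ?_⟩
  rw [hva, ← hxγ, div_eq_mul_inv, ← Units.val_inv_eq_inv_val]
  exact hx1

end

end Pool.Agent.ALL7
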