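import Pool.Agent.Lib.ALL_h7.Closure
import Pool.Agent.Lib.ALL_h7.PlusO

/-!
# Split extensions, valuations with values in an ordered field
-/

set_option autoImplicit false

open Polynomial

namespace Pool.Agent.ALL7

open Pool.Agent.TAO (OVal VPos)

section

variable {𝕂 : Type*} [Field 𝕂] [LinearOrder 𝕂] [IsStrictOrderedRing 𝕂] {M : Type*} [Field M]
  {L : Type*} [Field L] [Algebra L M]

/-- One root lemma for split extensions, `OVal` form. -/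
theorem one_root_isoO [IsAlgClosed M] [Infinite L] (v : OVal 𝕂 M) (E : IntermediateField L M)
    [FiniteDimensional L E] [Algebra.IsSeparable L E] (η : E) (hiso : Iso (toVal v) E η)
    {ψ : M} (hψ : ψ ∈ E) (β : 𝕂) :
    ∃ N : L[X], (taylor ψ (N.map (algebraMap L M))).coeff 1 ≠ 0 ∧
      ((taylor ψ (N.map (algebraMap L M))).coeff 0 ≠ 0 →
        v ((taylor ψ (N.map (algebraMap L M))).coeff 1) + β <
          v ((taylor ψ (N.map (algebraMap L M))).coeff 0)) ∧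
      ∀ j, 2 ≤ j → (taylor ψ (N.map (algebraMap L M))).coeff j ≠ 0 →
        v ((taylor ψ (N.map (algebraMap L M))).coeff 1) + β <
          v ((taylor ψ (N.map (algebraMap L M))).coeff j) + j * β := by
  obtain ⟨N, hN1, hN0, hNj⟩ := one_root_iso (toVal v) E η hiso hψ (ev_ne β)
  refine ⟨N, hN1, fun h => ?_, fun j hj h => ?_⟩
  · rw [toVal_ne v h, toVal_ne v hN1, ev_mul, ev_lt_iff] at hN0
    exact hN0
  · have h2 := hNj j hj
    rw [toVal_ne v h, toVal_ne v hN1, ev_mul, ev_pow, ev_mul, ev_lt_iff] at h2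
    exact h2

/-- Elements of split extensions become monomials, `OVal` form. -/
theorem mono_of_list_isoO [IsAlgClosed M] [Infinite L] (v : OVal 𝕂 M)
    (E : IntermediateField L M) [FiniteDimensional L E] [Algebra.IsSeparable L E] (η : E)
    (hiso : Iso (toVal v) E η) {a : M} (ha : a ∈ E) (ha0 : a ≠ 0) :
    ∃ Z : Finset L, (∀ z ∈ Z, z ≠ 0) ∧ ∀ (S : Subring M) (Γ : AddSubgroup 𝕂) (χ : 𝕂 → M),
      HClO v S → (∀ γ ∈ Γ, χ γ ≠ 0) → (∀ γ ∈ Γ, ∀ δ ∈ Γ, χ (γ + δ) = χ γ * χ δ) →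
      (∀ γ ∈ Γ, v (χ γ) = γ) → (∀ γ ∈ Γ, 0 ≤ γ → χ γ ∈ S) → (η : M) ∈ S →
      (∀ z ∈ Z, v (algebraMap L M z) ∈ Γ ∧
        algebraMap L M z / χ (v (algebraMap L M z)) ∈ S) →
      v a ∈ Γ ∧ a / χ (v a) ∈ S := by
  classical
  obtain ⟨Z, hZ0, hZ⟩ := mono_of_list_iso (toVal v) E η hiso ha ha0
  refine ⟨Z, hZ0, fun S Γ χ hS hne hadd hval hmem hηS hzm => ?_⟩
  have hχ0 : χ 0 = 1 := by
    have e1 := hadd 0 Γ.zero_mem 0 Γ.zero_mem
    rw [add_zero] at e1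
    have e2 := hne 0 Γ.zero_mem
    exact (mul_right_cancel₀ e2 (by rw [one_mul]; exact e1)).symm
  have hχinv : ∀ γ ∈ Γ, χ (-γ) = (χ γ)⁻¹ := by
    intro γ hγ
    have e1 := hadd γ hγ (-γ) (Γ.neg_mem hγ)
    rw [add_neg_cancel, hχ0] at e1
    exact eq_inv_of_mul_eq_one_right e1.symm
  obtain ⟨U, hU⟩ : ∃ U : Subgroup Mˣ, ∀ x : Mˣ, x ∈ U ↔ ∃ γ ∈ Γ, (x : M) = χ γ := by
    refine ⟨{ carrier := {x | ∃ γ ∈ Γ, (x : M) = χ γ}
              mul_mem' := ?_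
              one_mem' := ⟨0, Γ.zero_mem, by rw [hχ0, Units.val_one]⟩
              inv_mem' := ?_ }, fun x => Iff.rfl⟩
    · rintro x y ⟨γ, hγ, hx⟩ ⟨δ, hδ, hy⟩
      exact ⟨γ + δ, Γ.add_mem hγ hδ, by rw [Units.val_mul, hx, hy, hadd γ hγ δ hδ]⟩
    · rintro x ⟨γ, hγ, hx⟩
      exact ⟨-γ, Γ.neg_mem hγ, by rw [Units.val_inv_eq_inv_val, hx, hχinv γ hγ]⟩
  have hval' : ∀ x ∈ U, (toVal v) (x : M) ≤ 1 → (x : M) ∈ S := by
    intro x hx hle
    obtain ⟨γ, hγ, hxγ⟩ := (hU x).mp hx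
    have e1 := (toVal_le_one v).mp hle x.ne_zero
    rw [hxγ, hval γ hγ] at e1
    rw [hxγ]
    exact hmem γ hγ e1
  have hmono : ∀ z : M, z ≠ 0 → v z ∈ Γ → z / χ (v z) ∈ S → MonoX (toVal v) S U z := by
    intro z hz hzΓ hzS
    refine ⟨Units.mk0 _ (hne _ hzΓ), (hU _).mpr ⟨_, hzΓ, rfl⟩, ?_, ?_⟩
    · rw [Units.val_inv_eq_inv_val, Units.val_mk0, ← div_eq_mul_inv]; exact hzS
    · rw [Units.val_inv_eq_inv_val, Units.val_mk0, ← div_eq_mul_inv]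
      refine toVal_eq_one v (div_ne_zero hz (hne _ hzΓ)) ?_
      rw [v.map_div hz (hne _ hzΓ), hval _ hzΓ, sub_self]
  have hZU : ∀ z ∈ Z, MonoX (toVal v) S U (algebraMap L M z) := by
    intro z hz
    have hz0 : algebraMap L M z ≠ 0 := by rw [Ne, map_eq_zero]; exact hZ0 z hz
    exact hmono _ hz0 (hzm z hz).1 (hzm z hz).2
  obtain ⟨x, hx, hx1, hx2⟩ := hZ S U hS.toHCl hval' hηS hZU
  obtain ⟨γ, hγ, hxγ⟩ := (hU x).mp hx
  have hva : v a = γ := by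
    obtain ⟨-, e1⟩ := (toVal_eq_one_iff v).mp hx2
    rw [Units.val_inv_eq_inv_val, hxγ, ← div_eq_mul_inv, v.map_div ha0 (hne γ hγ),
      hval γ hγ] at e1
    linarith
  refine ⟨by rw [hva]; exact hγ, ?_⟩
  rw [hva, ← hxγ, div_eq_mul_inv, ← Units.val_inv_eq_inv_val]
  exact hx1

end

end Pool.Agent.ALL7
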