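import Pool.Agent.Lib.ALL_h7.Split

/-!
# Elements of the henselization lie in split extensions

`A` a subring of the valuation ring of `L`, `B` a subring of the valuation ring of `M` closed under
simple residue roots. `Gd a`: `a ∈ B` lies in a finite separable extension `E` of `L` with an
isolating element `η ∈ B`, and `s a` is integral over `A` for some integral `s ∈ E ∩ B` of value
one. The good elements are closed under sums, products, inverses of units, simple roots.
-/

set_option autoImplicit false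

open Polynomial

namespace Pool.Agent.ALL7

section

variable {Γ₀ : Type*} [LinearOrderedCommGroupWithZero Γ₀] {L M : Type*} [Field L] [Field M]
  [Algebra L M] (v : Valuation M Γ₀) (A : Subring L) (B : Subring M)

/-- `E` is split, `η` isolating, `s` a denominator. -/
structure Cm (E : IntermediateField L M) (η : E) (s : M) : Prop where
  iso : Iso v E η
  ηB : (η : M) ∈ B
  ηi : IsIntegral A (η : M)
  sE : s ∈ E
  sB : s ∈ B
  s1 : v s = 1
  si : IsIntegral A s

/-- `a` is good. -/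
def Gd (a : M) : Prop :=
  ∃ (E : IntermediateField L M) (_ : FiniteDimensional L E) (_ : Algebra.IsSeparable L E)
    (η : E) (s : M), Cm v A B E η s ∧ a ∈ E ∧ a ∈ B ∧ IsIntegral A (s * a)

variable {v A B}

theorem Cm.sup {E₁ E₂ : IntermediateField L M} {η₁ : E₁} {η₂ : E₂} {s₁ s₂ : M}
    (h₁ : Cm v A B E₁ η₁ s₁) (h₂ : Cm v A B E₂ η₂ s₂) :
    ∃ η : (E₁ ⊔ E₂ : IntermediateField L M), Cm v A B (E₁ ⊔ E₂) η (s₁ * s₂) := by
  obtain ⟨η, hη, hiso⟩ := h₁.iso.sup h₂.iso
  refine ⟨η, hiso, ?_, ?_, ?_, mul_mem h₁.sB h₂.sB, ?_, h₁.si.mul h₂.si⟩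
  · rw [hη]; exact mul_mem h₁.ηB h₂.ηB
  · rw [hη]; exact h₁.ηi.mul h₂.ηi
  · exact mul_mem ((le_sup_left : E₁ ≤ E₁ ⊔ E₂) h₁.sE) ((le_sup_right : E₂ ≤ E₁ ⊔ E₂) h₂.sE)
  · rw [map_mul, h₁.s1, h₂.s1, one_mul]

theorem Cm.bot : ∃ η : (⊥ : IntermediateField L M), Cm v A B ⊥ η 1 := by
  refine ⟨1, ⟨by simp, fun σ hσ => ?_⟩, ?_, ?_, one_mem _, one_mem _, map_one _, isIntegral_one⟩
  · exfalso
    apply hσ
    ext x
    obtain ⟨c, hc⟩ := IntermediateField.mem_bot.mp x.2
    have e1 : x = algebraMap L _ c := Subtype.ext hc.symm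
    rw [e1, AlgHom.commutes, AlgHom.commutes]
  · simp
  · simpa using isIntegral_one

/-- A common split extension for finitely many good elements. -/
theorem Gd.common (F : Finset M) (hF : ∀ a ∈ F, Gd v A B a) :
    ∃ (E : IntermediateField L M) (_ : FiniteDimensional L E) (_ : Algebra.IsSeparable L E)
      (η : E) (s : M), Cm v A B E η s ∧ ∀ a ∈ F, a ∈ E ∧ a ∈ B ∧ IsIntegral A (s * a) := by
  classical
  induction F using Finset.induction_on with
  | empty =>
    obtain ⟨η, hη⟩ := Cm.bot (v := v) (A := A) (B := B)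
    exact ⟨⊥, inferInstance, inferInstance, η, 1, hη, fun a ha => absurd ha (by simp)⟩
  | insert x F hx ih =>
    obtain ⟨E₁, hfd₁, hse₁, η₁, s₁, hc₁, h₁⟩ := ih fun a ha => hF a (Finset.mem_insert_of_mem ha)
    obtain ⟨E₂, hfd₂, hse₂, η₂, s₂, hc₂, hx₁, hx₂, hx₃⟩ := hF x (Finset.mem_insert_self _ _)
    obtain ⟨η, hη⟩ := hc₁.sup hc₂
    refine ⟨E₁ ⊔ E₂, inferInstance, inferInstance, η, s₁ * s₂, hη, fun a ha => ?_⟩
    rcases Finset.mem_insert.mp ha with rfl | ha
    · refine ⟨(le_sup_right : E₂ ≤ E₁ ⊔ E₂) hx₁, hx₂, ?_⟩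
      rw [mul_assoc]; exact hc₁.si.mul hx₃
    · obtain ⟨h2, h3, h4⟩ := h₁ a ha
      refine ⟨(le_sup_left : E₁ ≤ E₁ ⊔ E₂) h2, h3, ?_⟩
      rw [mul_right_comm]; exact h4.mul hc₂.si

theorem Gd.two {a b : M} (ha : Gd v A B a) (hb : Gd v A B b) :
    ∃ (E : IntermediateField L M) (_ : FiniteDimensional L E) (_ : Algebra.IsSeparable L E)
      (η : E) (s : M), Cm v A B E η s ∧ (a ∈ E ∧ a ∈ B ∧ IsIntegral A (s * a)) ∧
        (b ∈ E ∧ b ∈ B ∧ IsIntegral A (s * b)) := by
  classical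
  obtain ⟨E, h1, h2, η, s, hc, h⟩ := Gd.common ({a, b} : Finset M) (v := v) (A := A) (B := B)
    (fun x hx => by
      rcases Finset.mem_insert.mp hx with rfl | hx
      · exact ha
      · rw [Finset.mem_singleton.mp hx]; exact hb)
  exact ⟨E, h1, h2, η, s, hc, h a (by simp), h b (by simp)⟩

theorem Gd.add {a b : M} (ha : Gd v A B a) (hb : Gd v A B b) : Gd v A B (a + b) := by
  obtain ⟨E, h1, h2, η, s, hc, ⟨a1, a2, a3⟩, b1, b2, b3⟩ := ha.two hb
  exact ⟨E, h1, h2, η, s, hc, add_mem a1 b1, add_mem a2 b2, by rw [mul_add]; exact a3.add b3⟩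

theorem Gd.mul {a b : M} (ha : Gd v A B a) (hb : Gd v A B b) : Gd v A B (a * b) := by
  obtain ⟨E, h1, h2, η, s, hc, ⟨a1, a2, a3⟩, b1, b2, b3⟩ := ha.two hb
  refine ⟨E, h1, h2, η, s * s, ⟨hc.iso, hc.ηB, hc.ηi, mul_mem hc.sE hc.sE, mul_mem hc.sB hc.sB,
    ?_, hc.si.mul hc.si⟩, mul_mem a1 b1, mul_mem a2 b2, ?_⟩
  · rw [map_mul, hc.s1, one_mul]
  · rw [mul_mul_mul_comm]; exact a3.mul b3

theorem Gd.of_mem {c : L} (hc : c ∈ A) (hcB : algebraMap L M c ∈ B) :
    Gd v A B (algebraMap L M c) := by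
  obtain ⟨η, hη⟩ := Cm.bot (v := v) (A := A) (B := B)
  refine ⟨⊥, inferInstance, inferInstance, η, 1, hη, algebraMap_mem _ c, hcB, ?_⟩
  rw [one_mul]
  exact isIntegral_algebraMap (R := A) (x := (⟨c, hc⟩ : A))

theorem Gd.inv (hB : ∀ x ∈ B, v x = 1 → x⁻¹ ∈ B) {a : M} (ha : Gd v A B a) (h : v a = 1) :
    Gd v A B a⁻¹ := by
  obtain ⟨E, h1, h2, η, s, hc, a1, a2, a3⟩ := ha
  have ha0 : a ≠ 0 := fun h0 => by rw [h0, map_zero] at h; exact zero_ne_one h
  refine ⟨E, h1, h2, η, s * a, ⟨hc.iso, hc.ηB, hc.ηi, mul_mem hc.sE a1, mul_mem hc.sB a2, ?_, a3⟩,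
    inv_mem a1, hB a a2 h, ?_⟩
  · rw [map_mul, hc.s1, h, one_mul]
  · rw [mul_assoc, mul_inv_cancel₀ ha0, mul_one]; exact hc.si

/-- Integral elements have value at most one. -/
theorem le_one_of_integral (hA : ∀ c ∈ A, v (algebraMap L M c) ≤ 1) {x : M}
    (hx : IsIntegral A x) : v x ≤ 1 := by
  obtain ⟨P, hP, hx⟩ := hx
  refine root_le_one (L := L) (P := P.map (algebraMap A L)) v (hP.map _) (fun i => ?_) ?_
  · rw [coeff_map]; exact hA _ (P.coeff i).2
  · rw [aeval_map_algebraMap]; exact hx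

/-- The conjugates of an integral element have value at most one. -/
theorem conj_le_one (hA : ∀ c ∈ A, v (algebraMap L M c) ≤ 1) {E : IntermediateField L M}
    (σ : E →ₐ[L] M) (x : E) (hx : IsIntegral A (x : M)) : v (σ x) ≤ 1 := by
  obtain ⟨P, hP, hx⟩ := hx
  refine root_le_one (L := L) (P := P.map (algebraMap A L)) v (hP.map _) (fun i => ?_) ?_
  · rw [coeff_map]; exact hA _ (P.coeff i).2
  · rw [aeval_algHom_apply]
    have e1 : aeval x (P.map (algebraMap A L)) = 0 := by
      apply Subtype.val_injective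
      have e2 : ((aeval x (P.map (algebraMap A L)) : E) : M)
          = aeval (x : M) (P.map (algebraMap A L)) := (aeval_algebraMap_apply M x _).symm
      rw [e2, aeval_map_algebraMap]
      exact hx
    rw [e1, map_zero]

/-- The root step. -/
theorem Gd.root_aux (hA : ∀ c ∈ A, v (algebraMap L M c) ≤ 1) (hB1 : ∀ x ∈ B, v x ≤ 1)
    {E₀ : IntermediateField L M} [FiniteDimensional L E₀]
    [Algebra.IsSeparable L E₀] {η₀ : E₀} {s₀ : M} (hc : Cm v A B E₀ η₀ s₀) {P : M[X]}
    (hP : P.Monic) (hPc : ∀ i, P.coeff i ∈ E₀ ∧ P.coeff i ∈ B ∧ IsIntegral A (s₀ * P.coeff i))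
    {a : M} (ha1 : v a < 1) (ha : P.eval a = 0) (hd : v ((derivative P).eval a) = 1)
    (haB : a ∈ B) : Gd v A B a := by
  classical
  have hs0 : s₀ ≠ 0 := fun h => by
    have := hc.s1
    rw [h, map_zero] at this; exact zero_ne_one this
  obtain ⟨N, hN⟩ : ∃ N, N = P.natDegree := ⟨_, rfl⟩
  obtain ⟨Q, hQ⟩ : ∃ Q : M[X], Q = C (s₀ ^ N) * P.comp (C s₀⁻¹ * X) := ⟨_, rfl⟩
  have hQc : ∀ i, Q.coeff i = s₀ ^ (N - i) * P.coeff i := by
    intro i
    rw [hQ, coeff_C_mul, comp_C_mul_X_coeff]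
    by_cases hi : i ≤ N
    · rw [← Nat.sub_add_cancel hi, pow_add, Nat.add_sub_cancel_right]
      have : s₀ ^ i ≠ 0 := pow_ne_zero _ hs0
      rw [inv_pow]
      field_simp
    · rw [coeff_eq_zero_of_natDegree_lt (by omega), zero_mul, mul_zero, mul_zero]
  have hQdeg : Q.natDegree ≤ N := by
    rw [natDegree_le_iff_coeff_eq_zero]
    intro i hi
    rw [hQc, coeff_eq_zero_of_natDegree_lt (by omega), mul_zero]
  have hQm : Q.Monic := by
    refine monic_of_natDegree_le_of_coeff_eq_one N hQdeg ?_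
    rw [hQc, Nat.sub_self, pow_zero, one_mul, hN]
    exact hP
  have hQE : ∀ i, Q.coeff i ∈ E₀ := fun i => by
    rw [hQc]; exact mul_mem (pow_mem hc.sE _) (hPc i).1
  have hQB : ∀ i, Q.coeff i ∈ B := fun i => by
    rw [hQc]; exact mul_mem (pow_mem hc.sB _) (hPc i).2.1
  have hQi : ∀ i, IsIntegral A (Q.coeff i) := by
    intro i
    rcases lt_trichotomy i N with hi | hi | hi
    · rw [hQc]
      obtain ⟨j, hj⟩ : ∃ j, N - i = j + 1 := ⟨N - i - 1, by omega⟩
      rw [hj, pow_succ, mul_assoc]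
      exact (hc.si.pow j).mul (hPc i).2.2
    · rw [hQc, hi, Nat.sub_self, pow_zero, one_mul, hN]
      have : P.coeff P.natDegree = 1 := hP
      rw [this]; exact isIntegral_one
    · rw [coeff_eq_zero_of_natDegree_lt (by omega)]; exact isIntegral_zero
  obtain ⟨b, hb⟩ : ∃ b, b = s₀ * a := ⟨_, rfl⟩
  have hbB : b ∈ B := by rw [hb]; exact mul_mem hc.sB haB
  have hsb : s₀⁻¹ * b = a := by rw [hb]; field_simp
  have hQr : Q.eval b = 0 := by
    rw [hQ, eval_mul, eval_comp, eval_mul, eval_C, eval_C, eval_X, hsb, ha, mul_zero]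
  have hQd : v ((derivative Q).eval b) = 1 := by
    rw [hQ, derivative_C_mul, derivative_comp, derivative_C_mul, derivative_X, mul_one,
      eval_mul, eval_C, eval_mul, eval_C, eval_comp, eval_mul, eval_C, eval_X, hsb, map_mul,
      map_mul, hd, map_pow, map_inv₀, hc.s1, one_pow, inv_one, one_mul, one_mul]
  have hvb : v b < 1 := by rw [hb, map_mul, hc.s1, one_mul]; exact ha1
  have hbi : IsIntegral A b := by
    obtain ⟨R, hR⟩ : ∃ R : (integralClosure A M)[X], R.map (algebraMap _ M) = Q := by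
      have h1 : Q ∈ Polynomial.lifts (algebraMap (integralClosure A M) M) := by
        rw [lifts_iff_coeff_lifts]
        exact fun i => ⟨⟨Q.coeff i, hQi i⟩, rfl⟩
      exact (mem_lifts _).mp h1
    have hRm : R.Monic := by
      have h1 : (R.map (algebraMap (integralClosure A M) M)).Monic := by rw [hR]; exact hQm
      exact monic_of_injective (FaithfulSMul.algebraMap_injective _ _) h1
    refine isIntegral_trans (R := A) (A := integralClosure A M) b ⟨R, hRm, ?_⟩
    rw [← eval_map, hR]; exact hQr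
  -- lift to `E₀`
  obtain ⟨QE, hQE'⟩ : ∃ QE : E₀[X], QE.map (algebraMap E₀ M) = Q := by
    have h1 : Q ∈ Polynomial.lifts (algebraMap E₀ M) := by
      rw [lifts_iff_coeff_lifts]
      exact fun i => ⟨⟨Q.coeff i, hQE i⟩, rfl⟩
    exact (mem_lifts _).mp h1
  have hQEc : ∀ i, algebraMap E₀ M (QE.coeff i) = Q.coeff i := fun i => by
    rw [← hQE', coeff_map]
  have hQEm : QE.Monic := by
    have h1 : (QE.map (algebraMap E₀ M)).Monic := by rw [hQE']; exact hQm
    exact monic_of_injective (algebraMap E₀ M).injective h1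
  have hQO : ∀ i, v (algebraMap E₀ M (QE.coeff i)) ≤ 1 := fun i => by
    rw [hQEc]; exact hB1 _ (hQB i)
  have hQEr : aeval b QE = 0 := by
    rw [← eval_map_algebraMap, hQE']; exact hQr
  have h00 : v (algebraMap E₀ M (QE.coeff 0)) < 1 := by
    have h1 := aeval_sub_le v QE hQO hvb.le (y := (0 : M)) (by rw [map_zero]; exact zero_le)
    rw [hQEr, sub_zero, zero_sub, Valuation.map_neg, ← coeff_zero_eq_aeval_zero'] at h1
    exact lt_of_le_of_lt h1 hvb
  have h01 : v (algebraMap E₀ M (QE.coeff 1)) = 1 := by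
    have hdc : ∀ i, v (algebraMap E₀ M ((derivative QE).coeff i)) ≤ 1 := fun i => by
      rw [coeff_derivative, map_mul, map_mul]
      have e4 : v (algebraMap E₀ M ((i : E₀) + 1)) ≤ 1 := by
        have e5 : (algebraMap E₀ M ((i : E₀) + 1)) = ((i + 1 : ℕ) : M) := by push_cast; simp
        rw [e5]
        exact natCast_le_one v _
      calc v (algebraMap E₀ M (QE.coeff (i + 1))) * v (algebraMap E₀ M ((i : E₀) + 1))
          ≤ 1 * 1 := mul_le_mul' (hQO _) e4
        _ = 1 := one_mul _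
    have h1 := aeval_sub_le v (derivative QE) hdc hvb.le (y := (0 : M))
      (by rw [map_zero]; exact zero_le)
    have h2 : aeval b (derivative QE) = (derivative Q).eval b := by
      rw [← hQE', derivative_map, eval_map_algebraMap]
    have h3 : aeval (0 : M) (derivative QE) = algebraMap E₀ M (QE.coeff 1) := by
      rw [← coeff_zero_eq_aeval_zero', coeff_derivative]
      simp
    rw [h2, h3, sub_zero] at h1
    have h4 : algebraMap E₀ M (QE.coeff 1) = (derivative Q).eval b
        + -((derivative Q).eval b - algebraMap E₀ M (QE.coeff 1)) := by ring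
    rw [h4, Valuation.map_add_eq_of_lt_left, hQd]
    rw [Valuation.map_neg, hQd]
    exact lt_of_le_of_lt h1 hvb
  obtain ⟨H, hHc, hHb, hHx, -, hsep⟩ := hens_data v hQEm hQO h00 h01 hQEr hvb
  have hint : IsIntegral E₀ b := ⟨QE, hQEm, hQEr⟩
  -- the field `E₀(b)`
  obtain ⟨E', hE'⟩ : ∃ E' : IntermediateField E₀ M, E' = IntermediateField.adjoin E₀ {b} :=
    ⟨_, rfl⟩
  have hfd' : FiniteDimensional E₀ E' := by
    rw [hE']; exact IntermediateField.adjoin.finiteDimensional hint
  have hse' : Algebra.IsSeparable E₀ E' := by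
    rw [hE']; exact (IntermediateField.isSeparable_adjoin_simple_iff_isSeparable E₀ M).mpr hsep
  obtain ⟨E, hE⟩ : ∃ E : IntermediateField L M, E = E'.restrictScalars L := ⟨_, rfl⟩
  have hfd : FiniteDimensional L E := by
    rw [hE]; exact FiniteDimensional.trans L E₀ E'
  have hse : Algebra.IsSeparable L E := by
    rw [hE]; exact Algebra.IsSeparable.trans L E₀ E'
  have hbE' : b ∈ E' := by rw [hE']; exact IntermediateField.mem_adjoin_simple_self E₀ b
  have hmemE : ∀ x : M, x ∈ E ↔ x ∈ E' := fun x => by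
    rw [hE]; exact IntermediateField.mem_restrictScalars L
  have hbE : b ∈ E := (hmemE b).mpr hbE'
  have hE₀E : E₀ ≤ E := fun x hx => (hmemE x).mpr (E'.algebraMap_mem (⟨x, hx⟩ : E₀))
  obtain ⟨b', hb'⟩ : ∃ t : E, (t : M) = b := ⟨⟨b, hbE⟩, rfl⟩
  -- `H(b)`
  have hHi : ∀ i, IsIntegral A (algebraMap E₀ M (H.coeff i)) := fun i => by
    rw [hHc, hQEc]; exact hQi _
  have hHB : ∀ i, algebraMap E₀ M (H.coeff i) ∈ B := fun i => by
    rw [hHc, hQEc]; exact hQB _
  have hHbi : IsIntegral A (aeval b H) := by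
    rw [aeval_eq_sum_range]
    refine IsIntegral.sum _ fun i _ => ?_
    rw [Algebra.smul_def]
    exact (hHi i).mul (hbi.pow i)
  have hHbB : aeval b H ∈ B := by
    rw [aeval_eq_sum_range]
    refine sum_mem fun i _ => ?_
    rw [Algebra.smul_def]
    exact mul_mem (hHB i) (pow_mem hbB i)
  have hHbE : aeval b H ∈ E := by
    rw [aeval_eq_sum_range]
    refine sum_mem fun i _ => ?_
    rw [Algebra.smul_def]
    exact mul_mem (hE₀E (H.coeff i).2) (pow_mem hbE i)
  obtain ⟨η₁, hη₁⟩ : ∃ t : E, (t : M) = aeval b H := ⟨⟨_, hHbE⟩, rfl⟩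
  obtain ⟨η₂, hη₂⟩ : ∃ t : E, t = IntermediateField.inclusion hE₀E η₀ := ⟨_, rfl⟩
  have hη₂' : (η₂ : M) = (η₀ : M) := by rw [hη₂]; rfl
  have hiso : Iso v E (η₂ * η₁) := by
    refine ⟨?_, fun σ hσ => ?_⟩
    · change v ((η₂ : M) * (η₁ : M)) = 1
      rw [map_mul, hη₂', hη₁, hHb, hc.iso.one, one_mul]
    · rw [map_mul, map_mul]
      obtain ⟨σ₀, hσ₀⟩ : ∃ σ₀ : E₀ →ₐ[L] M, σ₀ = σ.comp (IntermediateField.inclusion hE₀E) :=
        ⟨_, rfl⟩
      have e1 : σ η₂ = σ₀ η₀ := by rw [hσ₀, hη₂]; rfl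
      by_cases h : σ₀ = E₀.val
      · -- `σ` fixes `E₀`
        have hfix : ∀ x : E₀, σ (IntermediateField.inclusion hE₀E x) = algebraMap E₀ M x :=
          fun x => by
            have e2 := DFunLike.congr_fun hσ₀ x
            rw [h] at e2
            exact e2.symm
        have hb2 : σ b' ≠ b := by
          intro hbb
          apply hσ
          -- all of `E` is generated by `b` over `E₀`
          let σ' : E' →ₐ[E₀] M :=
            { toFun := fun x => σ ⟨(x : M), (hmemE _).mpr x.2⟩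
              map_one' := map_one σ
              map_mul' := fun x y => map_mul σ (⟨(x : M), (hmemE _).mpr x.2⟩ : E)
                ⟨(y : M), (hmemE _).mpr y.2⟩
              map_zero' := map_zero σ
              map_add' := fun x y => map_add σ (⟨(x : M), (hmemE _).mpr x.2⟩ : E)
                ⟨(y : M), (hmemE _).mpr y.2⟩
              commutes' := fun x => hfix x }
          have e3 : σ' = E'.val := by
            refine IntermediateField.algHom_ext_of_eq_adjoin E₀ hE' fun x hx => ?_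
            have e4 : x = b := Set.mem_singleton_iff.mp hx
            subst e4
            change σ ⟨(x : M), _⟩ = x
            have e5 : ∀ hxE : x ∈ E, (⟨x, hxE⟩ : E) = b' := fun hxE => Subtype.ext hb'.symm
            rw [e5, hbb]
          ext x
          have e6 := DFunLike.congr_fun e3 (⟨(x : M), (hmemE _).mp x.2⟩ : E')
          exact e6
        have hgen : ∀ (R : E₀[X]) (t : E), (t : M) = aeval b R → σ t = aeval (σ b') R := by
          intro R t ht
          have e3 : t = ∑ i ∈ Finset.range (R.natDegree + 1),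
              IntermediateField.inclusion hE₀E (R.coeff i) * b' ^ i := by
            apply Subtype.ext
            rw [ht, aeval_eq_sum_range]
            push_cast
            refine Finset.sum_congr rfl fun i _ => ?_
            rw [Algebra.smul_def, hb']
            rfl
          rw [e3, map_sum, aeval_eq_sum_range]
          refine Finset.sum_congr rfl fun i _ => ?_
          rw [map_mul, map_pow, hfix, Algebra.smul_def]
        have hPb : aeval (σ b') QE = 0 := by
          rw [← hgen QE 0 (by rw [hQEr]; rfl), map_zero]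
        have hHσ : σ η₁ = aeval (σ b') H := hgen H η₁ hη₁
        have e7 : v (σ η₁) < 1 := by rw [hHσ]; exact hHx _ hPb hb2
        rw [e1, h]
        have e8 : v (E₀.val η₀) = 1 := hc.iso.one
        rw [e8, one_mul]
        exact e7
      · have e2 : v (σ₀ η₀) < 1 := hc.iso.lt _ h
        have e3 : v (σ η₁) ≤ 1 := conj_le_one hA σ η₁ (by rw [hη₁]; exact hHbi)
        rw [e1]
        calc v (σ₀ η₀) * v (σ η₁) ≤ v (σ₀ η₀) * 1 := mul_le_mul' le_rfl e3
          _ < 1 := by rw [mul_one]; exact e2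
  refine ⟨E, hfd, hse, η₂ * η₁, s₀, ⟨hiso, ?_, ?_, hE₀E hc.sE, hc.sB, hc.s1, hc.si⟩, ?_, haB, ?_⟩
  · change (η₂ : M) * (η₁ : M) ∈ B
    rw [hη₂', hη₁]; exact mul_mem hc.ηB hHbB
  · change IsIntegral A ((η₂ : M) * (η₁ : M))
    rw [hη₂', hη₁]; exact hc.ηi.mul hHbi
  · rw [← hsb]; exact mul_mem (inv_mem (hE₀E hc.sE)) hbE
  · rw [← hb]; exact hbi

end

end Pool.Agent.ALL7
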