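import Mathlib

/-!
# The one root lemma (block 5 of PROJECT ALL, any rank)

`(L, v)` a valued field, `ψ` in the henselization, `r` a radius: there is a polynomial over `L` with
exactly one root in the ball of radius `r` around `ψ` (and its initial form is a multiple of that of
`Z - ψ`). See `b525bf_ALLRANK_h7.md`.
-/

set_option autoImplicit false

open Polynomial

namespace Pool.Agent.ALL7

section Lagrange

variable {L M : Type*} [Field L] [Field M] [Algebra L M]

/-- A polynomial with values in `L` at the points of an infinite field `L` has coefficients in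
`L`. -/
theorem exists_map_of_eval [Infinite L] (Q : M[X])
    (h : ∀ z : L, ∃ w : L, Q.eval (algebraMap L M z) = algebraMap L M w) :
    ∃ Q' : L[X], Q'.map (algebraMap L M) = Q := by
  classical
  choose w hw using h
  obtain ⟨s, hs⟩ := Infinite.exists_subset_card_eq L (Q.natDegree + 1)
  refine ⟨Lagrange.interpolate s id w, ?_⟩
  have hinj : Set.InjOn (algebraMap L M) (s : Set L) := (algebraMap L M).injective.injOn
  have h1 : ((Lagrange.interpolate s id w).map (algebraMap L M)).degree < s.card := by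
    rw [degree_map]
    exact Lagrange.degree_interpolate_lt _ (Function.injective_id.injOn)
  have h2 : Q.degree < s.card := by
    refine lt_of_le_of_lt degree_le_natDegree ?_
    rw [hs]
    exact_mod_cast Nat.lt_succ_self _
  refine eq_of_degrees_lt_of_eval_index_eq s hinj h1 h2 fun z hz => ?_
  rw [hw, eval_map, eval₂_at_apply]
  congr 1
  exact Lagrange.eval_interpolate_at_node w (Function.injective_id.injOn) hz

end Lagrange

section Gauss

variable {Γ₀ : Type*} [LinearOrderedCommGroupWithZero Γ₀] {M : Type*} [Field M]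
  (v : Valuation M Γ₀) (r : Γ₀)

/-- The Gauss value of `Q` at radius `r` is at most `g`. -/
def Bd (Q : M[X]) (g : Γ₀) : Prop := ∀ j, v (Q.coeff j) * r ^ j ≤ g

/-- The constant coefficient of `Q` dominates at radius `r`, with value `g`. -/
def Dm (Q : M[X]) (g : Γ₀) : Prop :=
  v (Q.coeff 0) = g ∧ ∀ j, 1 ≤ j → v (Q.coeff j) * r ^ j < g

variable {v r}

theorem Bd.mul (hr : r ≠ 0) {Q Q' : M[X]} {g g' : Γ₀} (h : Bd v r Q g) (h' : Bd v r Q' g') :
    Bd v r (Q * Q') (g * g') := by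
  intro n
  have hr' : 0 < r ^ n := pow_pos (zero_lt_iff.mpr hr) n
  rw [← le_div_iff₀ hr', coeff_mul]
  refine v.map_sum_le fun x hx => ?_
  rw [le_div_iff₀ hr', map_mul, ← Finset.HasAntidiagonal.mem_antidiagonal.mp hx, pow_add]
  calc v (Q.coeff x.1) * v (Q'.coeff x.2) * (r ^ x.1 * r ^ x.2)
      = (v (Q.coeff x.1) * r ^ x.1) * (v (Q'.coeff x.2) * r ^ x.2) := mul_mul_mul_comm _ _ _ _
    _ ≤ g * g' := mul_le_mul' (h _) (h' _)

theorem Bd.prod (hr : r ≠ 0) {ι : Type*} (s : Finset ι) (Q : ι → M[X]) (g : ι → Γ₀)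
    (h : ∀ i ∈ s, Bd v r (Q i) (g i)) : Bd v r (∏ i ∈ s, Q i) (∏ i ∈ s, g i) := by
  classical
  induction s using Finset.induction_on with
  | empty =>
    intro j
    rw [Finset.prod_empty, Finset.prod_empty, coeff_one]
    split_ifs with hj
    · rw [hj, map_one, pow_zero, mul_one]
    · rw [map_zero, zero_mul]; exact zero_le
  | insert a s ha ih =>
    rw [Finset.prod_insert ha, Finset.prod_insert ha]
    exact Bd.mul hr (h a (Finset.mem_insert_self _ _))
      (ih fun i hi => h i (Finset.mem_insert_of_mem hi))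

theorem Dm.mul (hr : r ≠ 0) {Q Q' : M[X]} {g g' : Γ₀} (hg : g ≠ 0) (hg' : g' ≠ 0)
    (h : Dm v r Q g) (h' : Dm v r Q' g') : Dm v r (Q * Q') (g * g') := by
  refine ⟨by rw [mul_coeff_zero, map_mul, h.1, h'.1], fun n hn => ?_⟩
  have hr' : 0 < r ^ n := pow_pos (zero_lt_iff.mpr hr) n
  have hB : ∀ j, v (Q.coeff j) * r ^ j ≤ g := fun j => by
    rcases Nat.eq_zero_or_pos j with rfl | hj
    · rw [pow_zero, mul_one, h.1]
    · exact (h.2 j hj).le
  have hB' : ∀ j, v (Q'.coeff j) * r ^ j ≤ g' := fun j => by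
    rcases Nat.eq_zero_or_pos j with rfl | hj
    · rw [pow_zero, mul_one, h'.1]
    · exact (h'.2 j hj).le
  rw [← lt_div_iff₀ hr', coeff_mul]
  refine v.map_sum_lt (div_ne_zero (mul_ne_zero hg hg') hr'.ne') fun x hx => ?_
  have hx' := Finset.HasAntidiagonal.mem_antidiagonal.mp hx
  rw [lt_div_iff₀ hr', map_mul, ← hx', pow_add]
  have e : v (Q.coeff x.1) * v (Q'.coeff x.2) * (r ^ x.1 * r ^ x.2)
      = (v (Q.coeff x.1) * r ^ x.1) * (v (Q'.coeff x.2) * r ^ x.2) := mul_mul_mul_comm _ _ _ _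
  rw [e]
  rcases Nat.eq_zero_or_pos x.1 with h1 | h1
  · have h2 : 1 ≤ x.2 := by omega
    exact mul_lt_mul_of_le_of_lt_of_nonneg_of_pos (hB _) (h'.2 _ h2) zero_le (zero_lt_iff.mpr hg)
  · exact mul_lt_mul_of_lt_of_le_of_nonneg_of_pos (h.2 _ h1) (hB' _) zero_le (zero_lt_iff.mpr hg')

variable (v r)

/-- The linear factor `c (Y - δ)`. -/
noncomputable def lf (c δ : M) : M[X] := C c * (X - C δ)

/-- Its Gauss value. -/
def gl (c δ : M) : Γ₀ := v c * max r (v δ)

variable {v r}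

theorem Bd_lf (c δ : M) : Bd v r (lf c δ) (gl v r c δ) := by
  intro j
  unfold lf gl
  rw [coeff_C_mul, map_mul, mul_assoc]
  refine mul_le_mul' le_rfl ?_
  rcases j with _ | _ | j
  · rw [pow_zero, mul_one, coeff_sub, coeff_X_zero, coeff_C_zero, zero_sub, Valuation.map_neg]
    exact le_max_right _ _
  · rw [zero_add, pow_one, coeff_sub, coeff_X_one, coeff_C_succ, sub_zero, map_one, one_mul]
    exact le_max_left _ _
  · rw [coeff_sub, coeff_X_of_ne_one (by omega), coeff_C_succ, sub_zero, map_zero, zero_mul]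
    exact zero_le

theorem Dm_lf {c δ : M} (hc : c ≠ 0) (hr : r < v δ) : Dm v r (lf c δ) (gl v r c δ) := by
  unfold lf gl
  have hv : v c ≠ 0 := (Valuation.ne_zero_iff v).mpr hc
  have hm : max r (v δ) = v δ := max_eq_right hr.le
  have hδ : v δ ≠ 0 := (lt_of_le_of_lt zero_le hr).ne'
  refine ⟨?_, fun j hj => ?_⟩
  · rw [coeff_C_mul, map_mul, coeff_sub, coeff_X_zero, coeff_C_zero, zero_sub, Valuation.map_neg, hm]
  · rw [coeff_C_mul, map_mul, mul_assoc, hm]
    refine mul_lt_mul_of_pos_left ?_ (zero_lt_iff.mpr hv)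
    rcases j with _ | _ | j
    · omega
    · rw [zero_add, pow_one, coeff_sub, coeff_X_one, coeff_C_succ, sub_zero, map_one, one_mul]
      exact hr
    · rw [coeff_sub, coeff_X_of_ne_one (by omega), coeff_C_succ, sub_zero, map_zero, zero_mul]
      exact zero_lt_iff.mpr hδ

theorem Dm.prod (hr : r ≠ 0) {ι : Type*} (s : Finset ι) (Q : ι → M[X]) (g : ι → Γ₀)
    (hg : ∀ i ∈ s, g i ≠ 0) (h : ∀ i ∈ s, Dm v r (Q i) (g i)) :
    Dm v r (∏ i ∈ s, Q i) (∏ i ∈ s, g i) := by
  classical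
  induction s using Finset.induction_on with
  | empty =>
    rw [Finset.prod_empty, Finset.prod_empty]
    refine ⟨by rw [coeff_one_zero, map_one], fun j hj => ?_⟩
    rw [coeff_one, if_neg (by omega), map_zero, zero_mul]
    exact zero_lt_one
  | insert a s ha ih =>
    rw [Finset.prod_insert ha, Finset.prod_insert ha]
    exact Dm.mul hr (hg a (Finset.mem_insert_self _ _))
      (Finset.prod_ne_zero_iff.mpr fun i hi => hg i (Finset.mem_insert_of_mem hi))
      (h a (Finset.mem_insert_self _ _))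
      (ih (fun i hi => hg i (Finset.mem_insert_of_mem hi))
        fun i hi => h i (Finset.mem_insert_of_mem hi))

/-- The subset of the large elements has the strictly largest product among the subsets of its
cardinality. -/
theorem prod_lt_of_card {ι : Type*} [DecidableEq ι] (g : ι → Γ₀) (γ : Γ₀) (hγ : γ ≠ 0)
    (S T : Finset ι) (hS : ∀ i ∈ S, γ ≤ g i) (hS' : ∀ i, i ∉ S → g i < γ) (hc : T.card = S.card)
    (hne : T ≠ S) : ∏ i ∈ T, g i < ∏ i ∈ S, g i := by
  have h1 : ∏ i ∈ T, g i = (∏ i ∈ T \ S, g i) * ∏ i ∈ T ∩ S, g i := by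
    rw [← Finset.prod_union (Finset.disjoint_left.mpr fun i hi hi' => by
      simp only [Finset.mem_sdiff, Finset.mem_inter] at hi hi'; exact hi.2 hi'.2),
      Finset.sdiff_union_inter]
  have h2 : ∏ i ∈ S, g i = (∏ i ∈ S \ T, g i) * ∏ i ∈ T ∩ S, g i := by
    rw [Finset.inter_comm T S,
      ← Finset.prod_union (Finset.disjoint_left.mpr fun i hi hi' => by
      simp only [Finset.mem_sdiff, Finset.mem_inter] at hi hi'; exact hi.2 hi'.2),
      Finset.sdiff_union_inter]
  have hcard : (T \ S).card = (S \ T).card := Finset.card_sdiff_comm hc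
  have hTS : (T \ S).Nonempty := by
    by_contra h
    rw [Finset.not_nonempty_iff_eq_empty, Finset.sdiff_eq_empty_iff_subset] at h
    exact hne (Finset.eq_of_subset_of_card_le h hc.ge)
  obtain ⟨i₁, hi₁⟩ := hTS
  have h3 : ∏ i ∈ T \ S, g i < γ ^ (T \ S).card := by
    rw [← Finset.mul_prod_erase _ _ hi₁, ← Finset.card_erase_add_one hi₁, pow_succ, mul_comm]
    refine mul_lt_mul_of_le_of_lt_of_nonneg_of_pos ?_ (hS' _ (Finset.mem_sdiff.mp hi₁).2) zero_le
      (pow_pos (zero_lt_iff.mpr hγ) _)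
    refine Finset.prod_le_pow_card _ _ _ fun i hi => (hS' _ ?_).le
    exact (Finset.mem_sdiff.mp (Finset.mem_of_mem_erase hi)).2
  have h4 : γ ^ (S \ T).card ≤ ∏ i ∈ S \ T, g i :=
    Finset.pow_card_le_prod _ _ _ fun i hi => hS _ (Finset.mem_sdiff.mp hi).1
  have h5 : ∏ i ∈ T ∩ S, g i ≠ 0 := Finset.prod_ne_zero_iff.mpr fun i hi =>
    (lt_of_lt_of_le (zero_lt_iff.mpr hγ) (hS _ (Finset.mem_inter.mp hi).2)).ne'
  rw [h1, h2]
  refine mul_lt_mul_of_pos_right ?_ (zero_lt_iff.mpr h5)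
  rw [hcard] at h3
  exact lt_of_lt_of_le h3 h4

/-- The core of the one root lemma. -/
theorem core {ι : Type*} [Fintype ι] [DecidableEq ι] (hr : r ≠ 0) (c δ : ι → M) (i₀ : ι)
    (hc₀ : c i₀ ≠ 0) (hδ₀ : δ i₀ = 0)
    (hne : ∀ i, i ≠ i₀ → gl v r (c i) (δ i) ≠ v (c i₀) * r)
    (hbig : ∀ i, v (c i₀) * r < gl v r (c i) (δ i) → r < v (δ i)) :
    ∃ m : ℕ, m ≤ Fintype.card ι ∧ ∀ E : M[X],
      E = ∑ T ∈ Finset.powersetCard m Finset.univ, ∏ i ∈ T, lf (c i) (δ i) →
      E.coeff 1 ≠ 0 ∧ v (E.coeff 0) < v (E.coeff 1) * r ∧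
        ∀ j, 2 ≤ j → v (E.coeff j) * r ^ j < v (E.coeff 1) * r := by
  classical
  obtain ⟨γ, hγ⟩ : ∃ γ, γ = v (c i₀) * r := ⟨_, rfl⟩
  have hγ0 : γ ≠ 0 := by
    rw [hγ]; exact mul_ne_zero ((Valuation.ne_zero_iff v).mpr hc₀) hr
  have hgi₀ : gl v r (c i₀) (δ i₀) = γ := by
    unfold gl
    rw [hδ₀, map_zero, max_eq_left zero_le, hγ]
  obtain ⟨S, hS⟩ : ∃ S : Finset ι, S = Finset.univ.filter fun i => γ < gl v r (c i) (δ i) :=
    ⟨_, rfl⟩
  have hSi : ∀ i, i ∈ S ↔ γ < gl v r (c i) (δ i) := fun i => by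
    rw [hS, Finset.mem_filter]; exact ⟨fun h => h.2, fun h => ⟨Finset.mem_univ _, h⟩⟩
  have hi₀ : i₀ ∉ S := fun h => by
    rw [hSi, hgi₀] at h; exact lt_irrefl _ h
  obtain ⟨S', hS'⟩ : ∃ S' : Finset ι, S' = insert i₀ S := ⟨_, rfl⟩
  have hS'ge : ∀ i ∈ S', γ ≤ gl v r (c i) (δ i) := fun i hi => by
    rw [hS', Finset.mem_insert] at hi
    rcases hi with rfl | hi
    · exact hgi₀.ge
    · exact ((hSi i).mp hi).le
  have hS'lt : ∀ i, i ∉ S' → gl v r (c i) (δ i) < γ := fun i hi => by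
    rw [hS', Finset.mem_insert, not_or] at hi
    have h1 := hne i hi.1
    rw [← hγ] at h1
    exact lt_of_le_of_ne (not_lt.mp fun h => hi.2 ((hSi i).mpr h)) h1
  refine ⟨S'.card, Finset.card_le_univ _, fun E hE => ?_⟩
  obtain ⟨G, hG⟩ : ∃ G, G = ∏ i ∈ S', gl v r (c i) (δ i) := ⟨_, rfl⟩
  have hG0 : G ≠ 0 := by
    rw [hG]
    exact Finset.prod_ne_zero_iff.mpr fun i hi =>
      (lt_of_lt_of_le (zero_lt_iff.mpr hγ0) (hS'ge i hi)).ne'
  obtain ⟨Rt, hRt⟩ : ∃ Rt : M[X], Rt = ∏ i ∈ S, lf (c i) (δ i) := ⟨_, rfl⟩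
  obtain ⟨g, hg⟩ : ∃ g, g = ∏ i ∈ S, gl v r (c i) (δ i) := ⟨_, rfl⟩
  have hGg : G = v (c i₀) * g * r := by
    rw [hG, hS', Finset.prod_insert hi₀, hgi₀, hγ, ← hg]
    exact mul_right_comm _ _ _
  have hgc : v (c i₀) * g ≠ 0 := fun h => hG0 (by rw [hGg, h, zero_mul])
  have hD : Dm v r Rt g := by
    rw [hRt, hg]
    refine Dm.prod hr S _ _ (fun i hi => ?_) fun i hi => ?_
    · exact (lt_of_le_of_lt zero_le ((hSi i).mp hi)).ne'
    · have h1 := (hSi i).mp hi
      refine Dm_lf (fun h => ?_) (hbig i (by rw [← hγ]; exact h1))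
      rw [gl, h, map_zero, zero_mul] at h1
      exact not_lt_zero h1
  have hmain : ∏ i ∈ S', lf (c i) (δ i) = C (c i₀) * (X * Rt) := by
    rw [hS', Finset.prod_insert hi₀, ← hRt, lf, hδ₀, C_0, sub_zero, mul_assoc]
  have hsmall : ∀ j, v ((E - C (c i₀) * (X * Rt)).coeff j) * r ^ j < G := by
    intro j
    have hr' : 0 < r ^ j := pow_pos (zero_lt_iff.mpr hr) j
    have hsum : E - C (c i₀) * (X * Rt)
        = ∑ T ∈ (Finset.powersetCard S'.card Finset.univ).erase S', ∏ i ∈ T, lf (c i) (δ i) := by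
      rw [hE, ← Finset.add_sum_erase _ _
        (Finset.mem_powersetCard.mpr ⟨Finset.subset_univ S', rfl⟩), hmain]
      ring
    rw [hsum, finsetSum_coeff, ← lt_div_iff₀ hr']
    refine v.map_sum_lt (div_ne_zero hG0 hr'.ne') fun T hT => ?_
    rw [Finset.mem_erase, Finset.mem_powersetCard] at hT
    rw [lt_div_iff₀ hr']
    refine lt_of_le_of_lt (Bd.prod hr T _ (fun i => gl v r (c i) (δ i)) (fun i _ => Bd_lf _ _) j) ?_
    rw [hG]
    exact prod_lt_of_card _ γ hγ0 S' T hS'ge hS'lt hT.2.2 hT.1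
  have hcoef : ∀ j, E.coeff j = (E - C (c i₀) * (X * Rt)).coeff j
      + (C (c i₀) * (X * Rt)).coeff j := fun j => by rw [coeff_sub]; ring
  have h1 : v (E.coeff 1) = v (c i₀) * g := by
    have e0 : (C (c i₀) * (X * Rt)).coeff 1 = c i₀ * Rt.coeff 0 := by
      rw [coeff_C_mul, ← zero_add 1, coeff_X_mul]
    have e1 : v (c i₀ * Rt.coeff 0) = v (c i₀) * g := by rw [map_mul, hD.1]
    have h2 := hsmall 1
    rw [pow_one, hGg] at h2
    have h3 := lt_of_mul_lt_mul_right h2 zero_le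
    rw [hcoef, e0, Valuation.map_add_eq_of_lt_right _ (by rw [e1]; exact h3), e1]
  refine ⟨fun h => hgc (by rw [← h1, h, map_zero]), ?_, fun j hj => ?_⟩
  · rw [h1, ← hGg]
    have h2 := hsmall 0
    rw [pow_zero, mul_one] at h2
    rw [hcoef, coeff_C_mul, coeff_X_mul_zero, mul_zero, add_zero]
    exact h2
  · rw [h1, ← hGg, hcoef]
    have hr' : 0 < r ^ j := pow_pos (zero_lt_iff.mpr hr) j
    rw [← lt_div_iff₀ hr']
    refine v.map_add_lt ?_ ?_
    · rw [lt_div_iff₀ hr']; exact hsmall j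
    · rw [lt_div_iff₀ hr']
      obtain ⟨i, rfl⟩ : ∃ i, j = i + 1 := ⟨j - 1, by omega⟩
      rw [coeff_C_mul, coeff_X_mul, map_mul, hGg, pow_succ]
      have h3 := hD.2 i (by omega)
      have h4 : v (c i₀) * v (Rt.coeff i) * (r ^ i * r)
          = v (c i₀) * (v (Rt.coeff i) * r ^ i) * r := by
        rw [mul_assoc, mul_assoc, mul_assoc]
      rw [h4]
      refine mul_lt_mul_of_pos_right ?_ (zero_lt_iff.mpr hr)
      exact mul_lt_mul_of_pos_left h3 (zero_lt_iff.mpr ((Valuation.ne_zero_iff v).mpr hc₀))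

end Gauss

section Main

variable {Γ₀ : Type*} [LinearOrderedCommGroupWithZero Γ₀] {L M : Type*} [Field L] [Field M]
  [Algebra L M] (v : Valuation M Γ₀)

theorem pow_sub_pow_le {x y : M} (hx : v x ≤ 1) (hy : v y ≤ 1) (n : ℕ) :
    v (x ^ n - y ^ n) ≤ v (x - y) := by
  induction n with
  | zero => rw [pow_zero, pow_zero, sub_self, map_zero]; exact zero_le
  | succ n ih =>
    have h1 : x ^ (n + 1) - y ^ (n + 1) = x * (x ^ n - y ^ n) + y ^ n * (x - y) := by ring
    rw [h1]
    refine v.map_add_le ?_ ?_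
    · rw [map_mul]
      calc v x * v (x ^ n - y ^ n) ≤ 1 * v (x - y) := mul_le_mul' hx ih
        _ = v (x - y) := one_mul _
    · rw [map_mul, map_pow]
      calc v y ^ n * v (x - y) ≤ 1 * v (x - y) := mul_le_mul' (pow_le_one' hy n) le_rfl
        _ = v (x - y) := one_mul _

/-- Polynomials with integral coefficients are Lipschitz on the valuation ring. -/
theorem aeval_sub_le (H : L[X]) (hH : ∀ i, v (algebraMap L M (H.coeff i)) ≤ 1) {x y : M}
    (hx : v x ≤ 1) (hy : v y ≤ 1) : v (aeval x H - aeval y H) ≤ v (x - y) := by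
  rw [aeval_eq_sum_range, aeval_eq_sum_range, ← Finset.sum_sub_distrib]
  refine v.map_sum_le fun i _ => ?_
  rw [← smul_sub, Algebra.smul_def, map_mul]
  calc v (algebraMap L M (H.coeff i)) * v (x ^ i - y ^ i) ≤ 1 * v (x - y) :=
        mul_le_mul' (hH i) (pow_sub_pow_le v hx hy i)
    _ = v (x - y) := one_mul _

/-- A root of a monic polynomial with integral coefficients is integral. -/
theorem root_le_one {P : L[X]} (hP : P.Monic) (hPO : ∀ i, v (algebraMap L M (P.coeff i)) ≤ 1)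
    {x : M} (hx : aeval x P = 0) : v x ≤ 1 := by
  by_contra h
  rw [not_le] at h
  have h1 : x ^ P.natDegree = - ∑ i ∈ Finset.range P.natDegree, P.coeff i • x ^ i := by
    rw [aeval_eq_sum_range, Finset.sum_range_succ, hP.coeff_natDegree, one_smul] at hx
    linear_combination hx
  have hx0 : v x ≠ 0 := (lt_trans zero_lt_one h).ne'
  have h2 : v (x ^ P.natDegree) < v (x ^ P.natDegree) := by
    conv_lhs => rw [h1]
    rw [Valuation.map_neg]
    refine v.map_sum_lt ?_ fun i hi => ?_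
    · rw [map_pow]; exact pow_ne_zero _ hx0
    · rw [Algebra.smul_def, map_mul, map_pow, map_pow]
      have h3 : v x ^ i < v x ^ P.natDegree := pow_lt_pow_right₀ h (Finset.mem_range.mp hi)
      calc v (algebraMap L M (P.coeff i)) * v x ^ i ≤ 1 * v x ^ i := mul_le_mul' (hPO i) le_rfl
        _ = v x ^ i := one_mul _
        _ < v x ^ P.natDegree := h3
  exact lt_irrefl _ h2

theorem natCast_le_one (n : ℕ) : v (n : M) ≤ 1 := by
  induction n with
  | zero => rw [Nat.cast_zero, map_zero]; exact zero_le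
  | succ n ih => rw [Nat.cast_succ]; exact v.map_add_le ih (by rw [map_one])

/-- The values of the elementary symmetric functions of the conjugates are in `L`. -/
theorem esymm_conj [IsAlgClosed M] [Infinite L] {E : IntermediateField L M}
    [FiniteDimensional L E] [Algebra.IsSeparable L E] (b : E) {m : ℕ}
    (hm : m ≤ Fintype.card (E →ₐ[L] M)) :
    ∃ w : L, ∑ T ∈ Finset.powersetCard m Finset.univ, ∏ σ ∈ T, (σ : E →ₐ[L] M) b
      = algebraMap L M w := by
  classical
  obtain ⟨F, hF⟩ := exists_map_of_eval (L := L)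
    (∏ σ : E →ₐ[L] M, (X + C (σ b))) fun t => by
      refine ⟨Algebra.norm L (algebraMap L E t + b), ?_⟩
      rw [Algebra.norm_eq_prod_embeddings, eval_prod]
      refine Finset.prod_congr rfl fun σ _ => ?_
      rw [eval_add, eval_X, eval_C, map_add, AlgHom.commutes]
  refine ⟨F.coeff (Fintype.card (E →ₐ[L] M) - m), ?_⟩
  rw [← coeff_map, hF, Finset.prod_X_add_C_coeff _ _ (by
    rw [Finset.card_univ]; exact Nat.sub_le _ _), Finset.card_univ, Nat.sub_sub_self hm]

/-- **One root lemma.** -/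
theorem one_root [IsAlgClosed M] [Infinite L] {P : L[X]} (hP : P.Monic)
    (hPO : ∀ i, v (algebraMap L M (P.coeff i)) ≤ 1) (h0 : v (algebraMap L M (P.coeff 0)) < 1)
    (h1 : v (algebraMap L M (P.coeff 1)) = 1) {τ : M} (hτ : aeval τ P = 0) (hτ1 : v τ < 1)
    {ψ : M} (hψ : ψ ∈ IntermediateField.adjoin L {τ}) {r : Γ₀} (hr : r ≠ 0) :
    ∃ N : L[X], (taylor ψ (N.map (algebraMap L M))).coeff 1 ≠ 0 ∧
      v ((taylor ψ (N.map (algebraMap L M))).coeff 0) <
        v ((taylor ψ (N.map (algebraMap L M))).coeff 1) * r ∧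
      ∀ j, 2 ≤ j → v ((taylor ψ (N.map (algebraMap L M))).coeff j) * r ^ j <
        v ((taylor ψ (N.map (algebraMap L M))).coeff 1) * r := by
  classical
  -- the polynomial `H`
  obtain ⟨H, hH⟩ : ∃ H, H = P.divX := ⟨_, rfl⟩
  have hPH : P = X * H + C (P.coeff 0) := by
    rw [hH, mul_comm]; exact (divX_mul_X_add P).symm
  have hHc : ∀ i, H.coeff i = P.coeff (i + 1) := fun i => by rw [hH, coeff_divX]
  have hHO : ∀ i, v (algebraMap L M (H.coeff i)) ≤ 1 := fun i => by rw [hHc]; exact hPO _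
  have hrel : ∀ x : M, aeval x P = 0 → x * aeval x H = - algebraMap L M (P.coeff 0) := by
    intro x hx
    rw [hPH, map_add, map_mul, aeval_X, aeval_C] at hx
    linear_combination hx
  have hHτ : v (aeval τ H) = 1 := by
    have e1 : v (aeval τ H - aeval (0 : M) H) < 1 := by
      refine lt_of_le_of_lt (aeval_sub_le v H hHO hτ1.le (by rw [map_zero]; exact zero_le)) ?_
      rw [sub_zero]; exact hτ1
    have e2 : v (aeval (0 : M) H) = 1 := by
      rw [← coeff_zero_eq_aeval_zero', hHc]; exact h1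
    have e3 : aeval τ H = (aeval τ H - aeval (0 : M) H) + aeval (0 : M) H := by ring
    rw [e3, Valuation.map_add_eq_of_lt_right _ (by rw [e2]; exact e1), e2]
  -- the other roots
  have hoth : ∀ x : M, aeval x P = 0 → x ≠ τ → v x = 1 := by
    intro x hx hne
    refine le_antisymm (root_le_one v hP hPO hx) (not_lt.mp fun hlt => ?_)
    have e1 : (τ - x) * aeval τ H = x * (aeval x H - aeval τ H) := by
      have a1 := hrel x hx
      have a2 := hrel τ hτ
      linear_combination a2 - a1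
    have e2 : v (aeval x H - aeval τ H) ≤ v (x - τ) :=
      aeval_sub_le v H hHO hlt.le hτ1.le
    have e3 : v (τ - x) = v x * v (aeval x H - aeval τ H) := by
      rw [← map_mul, ← e1, map_mul, hHτ, mul_one]
    have e4 : v (τ - x) ≠ 0 := (Valuation.ne_zero_iff v).mpr (sub_ne_zero.mpr fun h => hne h.symm)
    have e5 : v (τ - x) = v (x - τ) := by rw [← Valuation.map_neg, neg_sub]
    have e6 : v (τ - x) < v (τ - x) := by
      calc v (τ - x) = v x * v (aeval x H - aeval τ H) := e3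
        _ ≤ v x * v (x - τ) := mul_le_mul' le_rfl e2
        _ < 1 * v (x - τ) := mul_lt_mul_of_pos_right hlt (by rw [← e5]; exact zero_lt_iff.mpr e4)
        _ = v (τ - x) := by rw [one_mul, e5]
    exact lt_irrefl _ e6
  -- the field `E = L(τ)`
  have hint : IsIntegral L τ := ⟨P, hP, hτ⟩
  obtain ⟨E, hE⟩ : ∃ E : IntermediateField L M, E = IntermediateField.adjoin L {τ} := ⟨_, rfl⟩
  have hτE : τ ∈ E := by rw [hE]; exact IntermediateField.mem_adjoin_simple_self L τ
  have hψE : ψ ∈ E := by rw [hE]; exact hψ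
  have : FiniteDimensional L E := by
    rw [hE]; exact IntermediateField.adjoin.finiteDimensional hint
  have hderiv : aeval τ (derivative P) ≠ 0 := by
    intro h
    have e1 : aeval τ (derivative P) = aeval τ H + τ * aeval τ (derivative H) := by
      conv_lhs => rw [hPH]
      rw [derivative_add, derivative_mul, derivative_X, derivative_C, one_mul, add_zero, map_add,
        map_mul, aeval_X]
    have e2 : v (τ * aeval τ (derivative H)) < 1 := by
      rw [map_mul]
      have e3 : v (aeval τ (derivative H)) ≤ 1 := by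
        rw [aeval_eq_sum_range]
        refine v.map_sum_le fun i _ => ?_
        rw [Algebra.smul_def, map_mul, map_pow, coeff_derivative, map_mul, map_mul]
        have e4 : v (algebraMap L M ((i : L) + 1)) ≤ 1 := by
          have e5 : (algebraMap L M ((i : L) + 1)) = ((i + 1 : ℕ) : M) := by push_cast; simp
          rw [e5]
          exact natCast_le_one v _
        calc v (algebraMap L M (H.coeff (i + 1))) * v (algebraMap L M ((i : L) + 1)) * v τ ^ i
            ≤ 1 * 1 * 1 := mul_le_mul' (mul_le_mul' (hHO _) e4) (pow_le_one' hτ1.le i)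
          _ = 1 := by rw [one_mul, one_mul]
      calc v τ * v (aeval τ (derivative H)) ≤ v τ * 1 := mul_le_mul' le_rfl e3
        _ < 1 := by rw [mul_one]; exact hτ1
    rw [e1] at h
    have e6 : v (aeval τ H + τ * aeval τ (derivative H)) = 1 := by
      rw [Valuation.map_add_eq_of_lt_left _ (by rw [hHτ]; exact e2), hHτ]
    rw [h, map_zero] at e6
    exact zero_ne_one e6
  have hsep : IsSeparable L τ := by
    have e1 : (minpoly L τ) ∣ P := minpoly.dvd L τ hτ
    obtain ⟨R, hR⟩ := e1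
    refine (Polynomial.separable_iff_derivative_ne_zero (minpoly.irreducible hint)).mpr fun h => ?_
    apply hderiv
    rw [hR, derivative_mul, h, zero_mul, zero_add, map_mul, minpoly.aeval, zero_mul]
  have : Algebra.IsSeparable L E := by
    rw [hE]; exact (IntermediateField.isSeparable_adjoin_simple_iff_isSeparable L M).mpr hsep
  -- elements of `E`
  obtain ⟨τ', hτ'⟩ : ∃ t : E, (t : M) = τ := ⟨⟨τ, hτE⟩, rfl⟩
  obtain ⟨ψ', hψ'⟩ : ∃ t : E, (t : M) = ψ := ⟨⟨ψ, hψE⟩, rfl⟩
  obtain ⟨η, hη⟩ : ∃ t : E, t = aeval τ' H := ⟨_, rfl⟩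
  have hση : ∀ σ : E →ₐ[L] M, σ η = aeval (σ τ') H := fun σ => by
    rw [hη, ← aeval_algHom_apply]
  have hPσ : ∀ σ : E →ₐ[L] M, aeval (σ τ') P = 0 := fun σ => by
    have e1 : aeval τ' P = 0 := by
      apply Subtype.val_injective
      have e2 : ((aeval τ' P : E) : M) = aeval τ P := by
        rw [← hτ']; exact (aeval_algebraMap_apply M τ' P).symm
      rw [e2, hτ]; rfl
    rw [aeval_algHom_apply, e1, map_zero]
  have hval : ∀ t : E, E.val t = (t : M) := fun t => rfl
  have hne : ∀ σ : E →ₐ[L] M, σ ≠ E.val → σ τ' ≠ τ := by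
    intro σ hσ h
    apply hσ
    refine IntermediateField.algHom_ext_of_eq_adjoin L hE fun x hx => ?_
    have e1 : ∀ hxE : x ∈ E, (⟨x, hxE⟩ : E) = τ' := fun hxE =>
      Subtype.ext ((Set.mem_singleton_iff.mp hx).trans hτ'.symm)
    rw [e1, h, hval, hτ']
  have hv1 : v (E.val η) = 1 := by
    rw [hση, hval, hτ']; exact hHτ
  have hv2 : ∀ σ : E →ₐ[L] M, σ ≠ E.val → v (σ η) < 1 := by
    intro σ hσ
    have e1 := hoth _ (hPσ σ) (hne σ hσ)
    have e2 := hrel _ (hPσ σ)
    have e3 : v (σ τ') * v (aeval (σ τ') H) = v (algebraMap L M (P.coeff 0)) := by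
      rw [← map_mul, e2, Valuation.map_neg]
    rw [e1, one_mul] at e3
    rw [hση, e3]; exact h0
  -- the exponent
  have hr0 : 0 < r := zero_lt_iff.mpr hr
  obtain ⟨n, hn1, hn⟩ : ∃ n : ℕ, 1 ≤ n ∧ ∀ σ : E →ₐ[L] M, σ ≠ E.val →
      v (σ η) ^ n * max r (v (σ ψ' - ψ)) ≠ r := by
    have hfin : ∀ σ : E →ₐ[L] M, σ ≠ E.val →
        {n : ℕ | 1 ≤ n ∧ v (σ η) ^ n * max r (v (σ ψ' - ψ)) = r}.Finite := by
      intro σ hσ
      refine Set.Subsingleton.finite fun a ha b hb => ?_
      have e1 : v (σ η) ^ a = v (σ η) ^ b := by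
        have e2 : max r (v (σ ψ' - ψ)) ≠ 0 := (lt_of_lt_of_le hr0 (le_max_left _ _)).ne'
        exact mul_right_cancel₀ e2 (ha.2.trans hb.2.symm)
      have e3 : v (σ η) ≠ 0 := by
        intro h
        have e4 := ha.2
        rw [h, zero_pow (by have := ha.1; omega), zero_mul] at e4
        exact hr e4.symm
      by_contra hab
      rcases lt_or_gt_of_ne hab with h | h
      · exact absurd e1 (pow_lt_pow_right_of_lt_one₀ (zero_lt_iff.mpr e3) (hv2 σ hσ) h).ne'
      · exact absurd e1 (pow_lt_pow_right_of_lt_one₀ (zero_lt_iff.mpr e3) (hv2 σ hσ) h).ne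
    have hfin2 : (⋃ σ : {σ : E →ₐ[L] M // σ ≠ E.val},
        {n : ℕ | 1 ≤ n ∧ v ((σ : E →ₐ[L] M) η) ^ n * max r (v ((σ : E →ₐ[L] M) ψ' - ψ)) = r}
        ).Finite := Set.finite_iUnion fun σ => hfin σ.1 σ.2
    obtain ⟨n, hn⟩ := (hfin2.union (Set.finite_singleton 0)).exists_notMem
    rw [Set.mem_union, not_or] at hn
    have hn0 : n ≠ 0 := fun h => hn.2 h
    refine ⟨n, Nat.one_le_iff_ne_zero.mpr hn0, fun σ hσ h => hn.1 ?_⟩
    exact Set.mem_iUnion.mpr ⟨⟨σ, hσ⟩, Nat.one_le_iff_ne_zero.mpr hn0, h⟩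
  -- the core
  have hle : ∀ σ : E →ₐ[L] M, v (σ η) ≤ 1 := fun σ => by
    by_cases hσ : σ = E.val
    · rw [hσ, hv1]
    · exact (hv2 σ hσ).le
  have hc0 : v ((E.val η) ^ n) = 1 := by rw [map_pow, hv1, one_pow]
  obtain ⟨m, hm, hcore⟩ := core (v := v) hr (fun σ : E →ₐ[L] M => (σ η) ^ n)
    (fun σ => σ ψ' - ψ) E.val
    (fun h => by
      have e1 : v ((E.val η) ^ n) = 0 := by
        have e2 : (E.val η) ^ n = 0 := h
        rw [e2, map_zero]
      rw [hc0] at e1; exact one_ne_zero e1)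
    (by
      rw [hval, hψ', sub_self])
    (fun σ hσ h => by
      unfold gl at h
      rw [hc0, one_mul, map_pow] at h
      exact hn σ hσ h)
    (fun σ h => by
      unfold gl at h
      rw [hc0, one_mul, map_pow] at h
      have e1 : v (σ η) ^ n * max r (v (σ ψ' - ψ)) ≤ 1 * max r (v (σ ψ' - ψ)) :=
        mul_le_mul' (pow_le_one' (hle σ) n) le_rfl
      rw [one_mul] at e1
      rcases lt_max_iff.mp (lt_of_lt_of_le h e1) with e2 | e2
      · exact absurd e2 (lt_irrefl _)
      · exact e2)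
  -- rationality
  obtain ⟨N, hN⟩ := exists_map_of_eval (L := L)
    (∑ T ∈ Finset.powersetCard m Finset.univ,
      ∏ σ ∈ T, (C (((σ : E →ₐ[L] M) η) ^ n) * (X - C (σ ψ')))) fun z => by
      obtain ⟨w, hw⟩ := esymm_conj (L := L) (η ^ n * (algebraMap L E z - ψ')) hm
      refine ⟨w, ?_⟩
      rw [← hw, eval_finsetSum]
      refine Finset.sum_congr rfl fun T _ => ?_
      rw [eval_prod]
      refine Finset.prod_congr rfl fun σ _ => ?_
      rw [eval_mul, eval_C, eval_sub, eval_X, eval_C, map_mul, map_pow, map_sub, AlgHom.commutes]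
  refine ⟨N, ?_⟩
  rw [hN]
  refine hcore _ ?_
  have e1 : ∀ Q : M[X], taylor ψ Q = taylorAlgHom ψ Q := fun Q => rfl
  rw [e1, map_sum]
  refine Finset.sum_congr rfl fun T _ => ?_
  rw [map_prod]
  refine Finset.prod_congr rfl fun σ _ => ?_
  rw [← e1, taylor_mul, taylor_C, map_sub, taylor_X, taylor_C, lf, C_sub]
  ring

end Main

end Pool.Agent.ALL7
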