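import Pool.Agent.Lib.ALL_h7.OneRoot

/-!
# Elements of the henselization become monomials (LUs ⇒ LUs⁺, any rank)

`a` in the henselization `L^h` (inside an algebraically closed valued field `M`): there is a finite
list `Z` of nonzero elements of `L` such that `a` is a monomial in every henselian subring `S` in
which the elements of `Z` are monomials.
-/

set_option autoImplicit false

open Polynomial

namespace Pool.Agent.ALL7

section

variable {Γ₀ : Type*} [LinearOrderedCommGroupWithZero Γ₀] {L M : Type*} [Field L] [Field M]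
  [Algebra L M] (v : Valuation M Γ₀)

/-- The polynomial `H` with `v(H(τ)) = 1` and `v(H(x)) < 1` for the other roots `x` of `P`. -/
theorem hens_data {P : L[X]} (hP : P.Monic)
    (hPO : ∀ i, v (algebraMap L M (P.coeff i)) ≤ 1) (h0 : v (algebraMap L M (P.coeff 0)) < 1)
    (h1 : v (algebraMap L M (P.coeff 1)) = 1) {τ : M} (hτ : aeval τ P = 0) (hτ1 : v τ < 1) :
    ∃ H : L[X], (∀ i, H.coeff i = P.coeff (i + 1)) ∧ v (aeval τ H) = 1 ∧
      (∀ x : M, aeval x P = 0 → x ≠ τ → v (aeval x H) < 1) ∧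
      v (aeval τ (derivative P)) = 1 ∧ IsSeparable L τ := by
  classical
  obtain ⟨H, hH⟩ : ∃ H, H = P.divX := ⟨_, rfl⟩
  have hPH : P = X * H + C (P.coeff 0) := by
    rw [hH, mul_comm]; exact (divX_mul_X_add P).symm
  have hHc : ∀ i, H.coeff i = P.coeff (i + 1) := fun i => by rw [hH, coeff_divX]
  have hHO : ∀ i, v (algebraMap L M (H.coeff i)) ≤ 1 := fun i => by rw [hHc]; exact hPO _
  have hrel : ∀ x : M, aeval x P = 0 → x * aeval x H = - algebraMap L M (P.coeff 0) := by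
    intro x hx
    rw [hPH, map_add, map_mul, aeval_X, aeval_C] at hx
    linear_combination hx
  have hHτ : v (aeval τ H) = 1 := by
    have e1 : v (aeval τ H - aeval (0 : M) H) < 1 := by
      refine lt_of_le_of_lt (aeval_sub_le v H hHO hτ1.le (by rw [map_zero]; exact zero_le)) ?_
      rw [sub_zero]; exact hτ1
    have e2 : v (aeval (0 : M) H) = 1 := by
      rw [← coeff_zero_eq_aeval_zero', hHc]; exact h1
    have e3 : aeval τ H = (aeval τ H - aeval (0 : M) H) + aeval (0 : M) H := by ring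
    rw [e3, Valuation.map_add_eq_of_lt_right _ (by rw [e2]; exact e1), e2]
  have hoth : ∀ x : M, aeval x P = 0 → x ≠ τ → v x = 1 := by
    intro x hx hne
    refine le_antisymm (root_le_one v hP hPO hx) (not_lt.mp fun hlt => ?_)
    have e1 : (τ - x) * aeval τ H = x * (aeval x H - aeval τ H) := by
      have a1 := hrel x hx
      have a2 := hrel τ hτ
      linear_combination a2 - a1
    have e2 : v (aeval x H - aeval τ H) ≤ v (x - τ) :=
      aeval_sub_le v H hHO hlt.le hτ1.le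
    have e3 : v (τ - x) = v x * v (aeval x H - aeval τ H) := by
      rw [← map_mul, ← e1, map_mul, hHτ, mul_one]
    have e4 : v (τ - x) ≠ 0 := (Valuation.ne_zero_iff v).mpr (sub_ne_zero.mpr fun h => hne h.symm)
    have e5 : v (τ - x) = v (x - τ) := by rw [← Valuation.map_neg, neg_sub]
    have e6 : v (τ - x) < v (τ - x) := by
      calc v (τ - x) = v x * v (aeval x H - aeval τ H) := e3
        _ ≤ v x * v (x - τ) := mul_le_mul' le_rfl e2
        _ < 1 * v (x - τ) := mul_lt_mul_of_pos_right hlt (by rw [← e5]; exact zero_lt_iff.mpr e4)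
        _ = v (τ - x) := by rw [one_mul, e5]
    exact lt_irrefl _ e6
  have hint : IsIntegral L τ := ⟨P, hP, hτ⟩
  have e1 : aeval τ (derivative P) = aeval τ H + τ * aeval τ (derivative H) := by
    conv_lhs => rw [hPH]
    rw [derivative_add, derivative_mul, derivative_X, derivative_C, one_mul, add_zero, map_add,
      map_mul, aeval_X]
  have e2 : v (τ * aeval τ (derivative H)) < 1 := by
    rw [map_mul]
    have e3 : v (aeval τ (derivative H)) ≤ 1 := by
      rw [aeval_eq_sum_range]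
      refine v.map_sum_le fun i _ => ?_
      rw [Algebra.smul_def, map_mul, map_pow, coeff_derivative, map_mul, map_mul]
      have e4 : v (algebraMap L M ((i : L) + 1)) ≤ 1 := by
        have e5 : (algebraMap L M ((i : L) + 1)) = ((i + 1 : ℕ) : M) := by push_cast; simp
        rw [e5]
        exact natCast_le_one v _
      calc v (algebraMap L M (H.coeff (i + 1))) * v (algebraMap L M ((i : L) + 1)) * v τ ^ i
          ≤ 1 * 1 * 1 := mul_le_mul' (mul_le_mul' (hHO _) e4) (pow_le_one' hτ1.le i)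
        _ = 1 := by rw [one_mul, one_mul]
    calc v τ * v (aeval τ (derivative H)) ≤ v τ * 1 := mul_le_mul' le_rfl e3
      _ < 1 := by rw [mul_one]; exact hτ1
  have hder1 : v (aeval τ (derivative P)) = 1 := by
    rw [e1, Valuation.map_add_eq_of_lt_left _ (by rw [hHτ]; exact e2), hHτ]
  refine ⟨H, hHc, hHτ, fun x hx hne => ?_, hder1, ?_⟩
  · have e3 : v x * v (aeval x H) = v (algebraMap L M (P.coeff 0)) := by
      rw [← map_mul, hrel x hx, Valuation.map_neg]
    rw [hoth x hx hne, one_mul] at e3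
    rw [e3]; exact h0
  · have e1 : (minpoly L τ) ∣ P := minpoly.dvd L τ hτ
    obtain ⟨R, hR⟩ := e1
    refine (Polynomial.separable_iff_derivative_ne_zero (minpoly.irreducible hint)).mpr fun h => ?_
    have e5 : aeval τ (derivative P) = 0 := by
      rw [hR, derivative_mul, h, zero_mul, zero_add, map_mul, minpoly.aeval, zero_mul]
    rw [e5, map_zero] at hder1
    exact zero_ne_one hder1

/-- Henselian subrings of the valuation ring: closed under inverses of elements of value one and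
under simple residue roots. -/
structure HCl (S : Subring M) : Prop where
  le : ∀ x ∈ S, v x ≤ 1
  inv : ∀ x ∈ S, v x = 1 → x⁻¹ ∈ S
  root : ∀ G : M[X], (∀ i, G.coeff i ∈ S) → ∀ x : M, v x ≤ 1 → G.eval x = 0 →
    v ((derivative G).eval x) = 1 → x ∈ S

/-- `z` is an element of `U` times a unit of `S`. -/
def MonoX (S : Subring M) (U : Subgroup Mˣ) (z : M) : Prop :=
  ∃ x ∈ U, z * ((x⁻¹ : Mˣ) : M) ∈ S ∧ v (z * ((x⁻¹ : Mˣ) : M)) = 1

variable {v}

theorem MonoX.ne_zero {S : Subring M} {U : Subgroup Mˣ} {z : M} (h : MonoX v S U z) : z ≠ 0 := by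
  obtain ⟨x, -, -, h1⟩ := h
  rintro rfl
  rw [zero_mul, map_zero] at h1
  exact zero_ne_one h1

/-- The quotient of two monomials is in `S` if its value is at most one. -/
theorem MonoX.div_mem {S : Subring M} (hS : HCl v S) {U : Subgroup Mˣ}
    (hX : ∀ x ∈ U, v (x : M) ≤ 1 → (x : M) ∈ S) {z w : M} (hz : MonoX v S U z)
    (hw : MonoX v S U w) (hle : v (z * w⁻¹) ≤ 1) : z * w⁻¹ ∈ S := by
  obtain ⟨x, hx, h1, h2⟩ := hz
  obtain ⟨y, hy, h3, h4⟩ := hw
  have hx0 : (x : M) ≠ 0 := x.ne_zero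
  have hy0 : (y : M) ≠ 0 := y.ne_zero
  have hw0 : w ≠ 0 := fun h => by
    rw [h, zero_mul, map_zero] at h4
    exact zero_ne_one h4
  have e1 : z * w⁻¹ = (z * ((x⁻¹ : Mˣ) : M)) * (w * ((y⁻¹ : Mˣ) : M))⁻¹
      * ((x * y⁻¹ : Mˣ) : M) := by
    rw [Units.val_mul, Units.val_inv_eq_inv_val, Units.val_inv_eq_inv_val]
    field_simp
  have e2 : v ((x * y⁻¹ : Mˣ) : M) ≤ 1 := by
    have e3 : v (z * w⁻¹) = v ((x * y⁻¹ : Mˣ) : M) := by
      rw [e1, map_mul v (z * ((x⁻¹ : Mˣ) : M) * (w * ((y⁻¹ : Mˣ) : M))⁻¹),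
        map_mul v (z * ((x⁻¹ : Mˣ) : M)), map_inv₀, h2, h4, inv_one, one_mul, one_mul]
    rw [← e3]; exact hle
  rw [e1]
  exact mul_mem (mul_mem h1 (hS.inv _ h3 h4)) (hX _ (mul_mem hx (inv_mem hy)) e2)

theorem MonoX.mem {S : Subring M} {U : Subgroup Mˣ}
    (hX : ∀ x ∈ U, v (x : M) ≤ 1 → (x : M) ∈ S) {z : M} (hz : MonoX v S U z)
    (hle : v z ≤ 1) : z ∈ S := by
  obtain ⟨x, hx, h1, h2⟩ := hz
  have hx0 : (x : M) ≠ 0 := x.ne_zero
  have e1 : z = (z * ((x⁻¹ : Mˣ) : M)) * (x : M) := by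
    rw [Units.val_inv_eq_inv_val]
    field_simp
  have e2 : v (x : M) ≤ 1 := by
    have e3 : v z = v (x : M) := by
      conv_lhs => rw [e1]
      rw [map_mul v (z * ((x⁻¹ : Mˣ) : M)), h2, one_mul]
    rw [← e3]; exact hle
  rw [e1]
  exact mul_mem h1 (hX _ hx e2)

theorem MonoX.mul_unit {S : Subring M} {U : Subgroup Mˣ} {z u : M} (hz : MonoX v S U z)
    (hu : u ∈ S) (hu1 : v u = 1) : MonoX v S U (z * u) := by
  obtain ⟨x, hx, h1, h2⟩ := hz
  refine ⟨x, hx, ?_, ?_⟩
  · rw [mul_right_comm]; exact mul_mem h1 hu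
  · rw [mul_right_comm, map_mul, h2, hu1, one_mul]

theorem MonoX.mul_mono {S : Subring M} {U : Subgroup Mˣ} {z : M} {x : Mˣ}
    (hz : MonoX v S U z) (hx : x ∈ U) : MonoX v S U (z * (x : M)) := by
  obtain ⟨y, hy, h1, h2⟩ := hz
  have e1 : z * (x : M) * (((y * x)⁻¹ : Mˣ) : M) = z * ((y⁻¹ : Mˣ) : M) := by
    have hx0 : (x : M) ≠ 0 := x.ne_zero
    have hy0 : (y : M) ≠ 0 := y.ne_zero
    rw [Units.val_inv_eq_inv_val, Units.val_inv_eq_inv_val, Units.val_mul]
    field_simp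
  exact ⟨y * x, mul_mem hy hx, by rw [e1]; exact h1, by rw [e1]; exact h2⟩

theorem MonoX.neg_one_pow_mul {S : Subring M} {U : Subgroup Mˣ} {z : M} (n : ℕ)
    (hz : MonoX v S U z) : MonoX v S U ((-1) ^ n * z) := by
  rw [mul_comm]
  refine hz.mul_unit (pow_mem (neg_mem (one_mem S)) n) ?_
  rw [map_pow, Valuation.map_neg, map_one, one_pow]

/-- Products over arbitrary subsets are at most the product over the large elements. -/
theorem prod_le_big {ι : Type*} [DecidableEq ι] (g : ι → Γ₀) (S T : Finset ι)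
    (hS : ∀ i ∈ S, 1 ≤ g i) (hS' : ∀ i, i ∉ S → g i ≤ 1) : ∏ i ∈ T, g i ≤ ∏ i ∈ S, g i := by
  have h1 : ∏ i ∈ T, g i = (∏ i ∈ T \ S, g i) * ∏ i ∈ T ∩ S, g i := by
    rw [← Finset.prod_union (Finset.disjoint_left.mpr fun i hi hi' => by
      simp only [Finset.mem_sdiff, Finset.mem_inter] at hi hi'; exact hi.2 hi'.2),
      Finset.sdiff_union_inter]
  have h2 : ∏ i ∈ S, g i = (∏ i ∈ S \ T, g i) * ∏ i ∈ T ∩ S, g i := by
    rw [Finset.inter_comm T S,
      ← Finset.prod_union (Finset.disjoint_left.mpr fun i hi hi' => by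
      simp only [Finset.mem_sdiff, Finset.mem_inter] at hi hi'; exact hi.2 hi'.2),
      Finset.sdiff_union_inter]
  rw [h1, h2]
  refine mul_le_mul' (le_trans ?_ (?_ : (1 : Γ₀) ≤ _)) le_rfl
  · exact Finset.prod_le_one' fun i hi => hS' i (Finset.mem_sdiff.mp hi).2
  · exact Finset.one_le_prod' fun i hi => hS i (Finset.mem_sdiff.mp hi).1

/-- The dominant elementary symmetric functions. -/
theorem esymm_dom {ι : Type*} [Fintype ι] [DecidableEq ι] (t : ι → M) (S : Finset ι) {γ : Γ₀}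
    (hγ : γ ≠ 0) (hS : ∀ i ∈ S, γ ≤ v (t i)) (hS' : ∀ i, i ∉ S → v (t i) < γ) :
    v (∑ T ∈ Finset.powersetCard S.card Finset.univ, ∏ i ∈ T, t i) = ∏ i ∈ S, v (t i) := by
  have hG0 : ∏ i ∈ S, v (t i) ≠ 0 := Finset.prod_ne_zero_iff.mpr fun i hi =>
    (lt_of_lt_of_le (zero_lt_iff.mpr hγ) (hS i hi)).ne'
  rw [← Finset.add_sum_erase _ _
    (Finset.mem_powersetCard.mpr ⟨Finset.subset_univ S, rfl⟩),
    Valuation.map_add_eq_of_lt_left, map_prod]
  rw [map_prod]
  refine v.map_sum_lt hG0 fun T hT => ?_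
  rw [Finset.mem_erase, Finset.mem_powersetCard] at hT
  rw [map_prod]
  exact prod_lt_of_card (fun i => v (t i)) γ hγ S T hS hS' hT.2.2 hT.1

/-- The core: an element alone at its value among its conjugates. -/
theorem root_core {ι : Type*} [Fintype ι] [DecidableEq ι] {S : Subring M} {U : Subgroup Mˣ}
    (hS : HCl v S) (hX : ∀ x ∈ U, v (x : M) ≤ 1 → (x : M) ∈ S) (a : ι → M) (i₀ : ι)
    (ha : a i₀ ≠ 0) (hne : ∀ i, i ≠ i₀ → v (a i) ≠ v (a i₀))
    (hE : ∀ j, j ≤ Fintype.card ι → ∑ T ∈ Finset.powersetCard j Finset.univ, ∏ i ∈ T, a i = 0 ∨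
      MonoX v S U (∑ T ∈ Finset.powersetCard j Finset.univ, ∏ i ∈ T, a i)) :
    MonoX v S U (a i₀) := by
  classical
  have hv0 : v (a i₀) ≠ 0 := (Valuation.ne_zero_iff v).mpr ha
  obtain ⟨B, hB⟩ : ∃ B : Finset ι, B = Finset.univ.filter fun i => v (a i₀) < v (a i) := ⟨_, rfl⟩
  have hBi : ∀ i, i ∈ B ↔ v (a i₀) < v (a i) := fun i => by
    rw [hB, Finset.mem_filter]; exact ⟨fun h => h.2, fun h => ⟨Finset.mem_univ _, h⟩⟩
  have hi₀ : i₀ ∉ B := fun h => lt_irrefl _ ((hBi _).mp h)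
  obtain ⟨E, hEd⟩ : ∃ E : ℕ → M, ∀ j, E j =
      ∑ T ∈ Finset.powersetCard j Finset.univ, ∏ i ∈ T, a i := ⟨_, fun j => rfl⟩
  simp_rw [← hEd] at hE
  -- values of `E s` and `E (s+1)`
  have hGs : v (E B.card) = ∏ i ∈ B, v (a i) := by
    rw [hEd]
    rcases B.eq_empty_or_nonempty with h | h
    · rw [h, Finset.card_empty, Finset.powersetCard_zero, Finset.sum_singleton,
        Finset.prod_empty, Finset.prod_empty, map_one]
    · obtain ⟨i₁, hi₁, hmin⟩ := Finset.exists_min_image B (fun i => v (a i)) h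
      have h1 := (hBi i₁).mp hi₁
      refine esymm_dom a B (γ := v (a i₁)) (lt_of_le_of_lt zero_le h1).ne' hmin fun i hi => ?_
      exact lt_of_le_of_lt (not_lt.mp fun h => hi ((hBi i).mpr h)) h1
  have hBin : ∏ i ∈ B, v (a i) ≠ 0 := Finset.prod_ne_zero_iff.mpr fun i hi =>
    (lt_of_le_of_lt zero_le ((hBi i).mp hi)).ne'
  have hGs1 : v (E (B.card + 1)) = v (a i₀) * ∏ i ∈ B, v (a i) := by
    rw [hEd, ← Finset.card_insert_of_notMem hi₀, esymm_dom a (insert i₀ B) (γ := v (a i₀)) hv0,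
      Finset.prod_insert hi₀]
    · intro i hi
      rw [Finset.mem_insert] at hi
      rcases hi with rfl | hi
      · exact le_rfl
      · exact ((hBi i).mp hi).le
    · intro i hi
      rw [Finset.mem_insert, not_or] at hi
      exact lt_of_le_of_ne (not_lt.mp fun h => hi.2 ((hBi i).mpr h)) (hne i hi.1)
  have hcard : B.card + 1 ≤ Fintype.card ι := by
    rw [← Finset.card_insert_of_notMem hi₀]; exact Finset.card_le_univ _
  have hEs0 : E B.card ≠ 0 := fun h => hBin (by rw [← hGs, h, map_zero])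
  have hEs10 : E (B.card + 1) ≠ 0 := fun h => mul_ne_zero hv0 hBin (by rw [← hGs1, h, map_zero])
  have hMs : MonoX v S U (E B.card) := (hE _ (by omega)).resolve_left hEs0
  have hMs1 : MonoX v S U (E (B.card + 1)) := (hE _ hcard).resolve_left hEs10
  obtain ⟨x, hx, hx1, hx2⟩ := id hMs
  obtain ⟨y, hy, hy1, hy2⟩ := id hMs1
  obtain ⟨c, hc⟩ : ∃ c : Mˣ, c = y * x⁻¹ := ⟨_, rfl⟩
  have hcX : c ∈ U := by rw [hc]; exact mul_mem hy (inv_mem hx)
  have hvx : v (x : M) = v (E B.card) := by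
    rw [map_mul, Units.val_inv_eq_inv_val, map_inv₀] at hx2
    have hx0 : v (x : M) ≠ 0 := (Valuation.ne_zero_iff v).mpr x.ne_zero
    exact ((mul_inv_eq_one₀ hx0).mp hx2).symm
  have hvy : v (y : M) = v (E (B.card + 1)) := by
    rw [map_mul, Units.val_inv_eq_inv_val, map_inv₀] at hy2
    have hy0 : v (y : M) ≠ 0 := (Valuation.ne_zero_iff v).mpr y.ne_zero
    exact ((mul_inv_eq_one₀ hy0).mp hy2).symm
  have hvc : v (c : M) = v (a i₀) := by
    rw [hc, Units.val_mul, map_mul, Units.val_inv_eq_inv_val, map_inv₀, hvx, hvy, hGs, hGs1]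
    exact mul_inv_cancel_right₀ hBin _
  have hc0 : (c : M) ≠ 0 := c.ne_zero
  have hvc0 : v (c : M) ≠ 0 := by rw [hvc]; exact hv0
  -- normalised conjugates
  obtain ⟨t, ht⟩ : ∃ t : ι → M, ∀ i, t i = a i * (c : M)⁻¹ := ⟨_, fun i => rfl⟩
  have hvt : ∀ i, v (t i) = v (a i) * (v (a i₀))⁻¹ := fun i => by
    rw [ht, map_mul, map_inv₀, hvc]
  have hvt₀ : v (t i₀) = 1 := by rw [hvt]; exact mul_inv_cancel₀ hv0
  have hprod : ∀ T : Finset ι, ∏ i ∈ T, (-t i) = (-1) ^ T.card * ((c : M)⁻¹ ^ T.card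
      * ∏ i ∈ T, a i) := fun T => by
    have e1 : ∀ i, -t i = (-1 * (c : M)⁻¹) * a i := fun i => by rw [ht]; ring
    simp_rw [e1]
    rw [Finset.prod_mul_distrib, Finset.prod_const, mul_pow]
    ring
  obtain ⟨F, hF⟩ : ∃ F : M[X], F = ∏ i : ι, (X + C (-t i)) := ⟨_, rfl⟩
  have hFc : ∀ k, k ≤ Fintype.card ι → F.coeff k = (-1) ^ (Fintype.card ι - k) *
      ((c : M)⁻¹ ^ (Fintype.card ι - k) * E (Fintype.card ι - k)) := fun k hk => by
    rw [hF, Finset.prod_X_add_C_coeff _ _ (by rw [Finset.card_univ]; exact hk), Finset.card_univ,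
      hEd, Finset.mul_sum, Finset.mul_sum]
    refine Finset.sum_congr rfl fun T hT => ?_
    rw [hprod, (Finset.mem_powersetCard.mp hT).2]
  have hFdeg : F.natDegree ≤ Fintype.card ι := by
    rw [hF]
    refine (natDegree_prod_le _ _).trans ?_
    refine (Finset.sum_le_sum fun i _ => (natDegree_X_add_C (-t i)).le).trans ?_
    rw [Finset.sum_const, smul_eq_mul, mul_one, Finset.card_univ]
  -- the leading value
  obtain ⟨w, hw⟩ : ∃ w : M, w = (-1) ^ B.card * ((c : M)⁻¹ ^ B.card * E B.card) := ⟨_, rfl⟩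
  have hvw : v w = ∏ i ∈ B, v (t i) := by
    rw [hw, map_mul, map_pow, Valuation.map_neg, map_one, one_pow, one_mul, map_mul, map_pow, hGs,
      map_inv₀, hvc]
    simp_rw [hvt]
    rw [Finset.prod_mul_distrib, Finset.prod_const, mul_comm]
  have hw0 : w ≠ 0 := fun h => by
    have h1 : ∏ i ∈ B, v (t i) ≠ 0 := Finset.prod_ne_zero_iff.mpr fun i hi => by
      rw [hvt]
      exact mul_ne_zero (lt_of_le_of_lt zero_le ((hBi i).mp hi)).ne' (inv_ne_zero hv0)
    exact h1 (by rw [← hvw, h, map_zero])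
  have hcj : ∀ j z, MonoX v S U z → MonoX v S U ((-1) ^ j * ((c : M)⁻¹ ^ j * z)) := by
    intro j z hz
    refine MonoX.neg_one_pow_mul j ?_
    have e1 : (c : M)⁻¹ ^ j * z = z * (((c⁻¹) ^ j : Mˣ) : M) := by
      rw [Units.val_pow_eq_pow_val, Units.val_inv_eq_inv_val, mul_comm]
    rw [e1]
    exact hz.mul_mono (pow_mem (inv_mem hcX) j)
  have hMw : MonoX v S U w := by rw [hw]; exact hcj _ _ hMs
  have hbig : ∀ i ∈ B, 1 ≤ v (t i) := fun i hi => by
    rw [hvt, ← div_eq_mul_inv, one_le_div₀ (zero_lt_iff.mpr hv0)]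
    exact ((hBi i).mp hi).le
  have hsml : ∀ i, i ∉ B → v (t i) ≤ 1 := fun i hi => by
    rw [hvt, ← div_eq_mul_inv, div_le_one₀ (zero_lt_iff.mpr hv0)]
    exact not_lt.mp fun h => hi ((hBi i).mpr h)
  have hFle : ∀ k, v (F.coeff k) ≤ v w := by
    intro k
    by_cases hk : k ≤ Fintype.card ι
    · rw [hF, Finset.prod_X_add_C_coeff _ _ (by rw [Finset.card_univ]; exact hk), hvw]
      refine v.map_sum_le fun T _ => ?_
      rw [map_prod]
      simp_rw [Valuation.map_neg]
      exact prod_le_big _ B T hbig hsml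
    · rw [coeff_eq_zero_of_natDegree_lt (by omega), map_zero]; exact zero_le
  obtain ⟨G, hG⟩ : ∃ G : M[X], G = C w⁻¹ * F := ⟨_, rfl⟩
  have hGc : ∀ k, G.coeff k ∈ S := by
    intro k
    rw [hG, coeff_C_mul, mul_comm]
    by_cases h0 : F.coeff k = 0
    · rw [h0, zero_mul]; exact zero_mem S
    have hk : k ≤ Fintype.card ι := by
      by_contra h
      exact h0 (coeff_eq_zero_of_natDegree_lt (by omega))
    have hM : MonoX v S U (F.coeff k) := by
      rw [hFc k hk]
      refine hcj _ _ ((hE _ (Nat.sub_le _ _)).resolve_left fun h => h0 ?_)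
      rw [hFc k hk, h, mul_zero, mul_zero]
    refine hM.div_mem hS hX hMw ?_
    rw [map_mul, map_inv₀, ← div_eq_mul_inv,
      div_le_one₀ (zero_lt_iff.mpr ((Valuation.ne_zero_iff v).mpr hw0))]
    exact hFle k
  have hFr : F.eval (t i₀) = 0 := by
    rw [hF, eval_prod]
    refine Finset.prod_eq_zero (Finset.mem_univ i₀) ?_
    rw [eval_add, eval_X, eval_C, add_neg_cancel]
  have hFd : v ((derivative F).eval (t i₀)) = v w := by
    have e1 : F = (X + C (-t i₀)) * ∏ i ∈ Finset.univ.erase i₀, (X + C (-t i)) := by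
      rw [hF]
      exact (Finset.mul_prod_erase Finset.univ (fun i => X + C (-t i)) (Finset.mem_univ i₀)).symm
    rw [e1, derivative_mul, derivative_add, derivative_X, derivative_C, add_zero, one_mul,
      eval_add, eval_mul, eval_add, eval_X, eval_C, add_neg_cancel, zero_mul, add_zero, eval_prod,
      map_prod, hvw]
    have e2 : ∀ i ∈ Finset.univ.erase i₀, v (eval (t i₀) (X + C (-t i)))
        = if i ∈ B then v (t i) else 1 := by
      intro i hi
      have hi' := Finset.ne_of_mem_erase hi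
      rw [eval_add, eval_X, eval_C]
      split_ifs with h
      · have h1 : v (t i₀) < v (-t i) := by
          rw [Valuation.map_neg, hvt₀, hvt, ← div_eq_mul_inv, one_lt_div₀ (zero_lt_iff.mpr hv0)]
          exact (hBi i).mp h
        rw [Valuation.map_add_eq_of_lt_right _ h1, Valuation.map_neg]
      · have h1 : v (-t i) < v (t i₀) := by
          rw [Valuation.map_neg, hvt₀, hvt, ← div_eq_mul_inv, div_lt_one₀ (zero_lt_iff.mpr hv0)]
          exact lt_of_le_of_ne (not_lt.mp fun h' => h ((hBi i).mpr h')) (hne i hi')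
        rw [Valuation.map_add_eq_of_lt_left _ h1, hvt₀]
    rw [Finset.prod_congr rfl e2, Finset.prod_ite_mem]
    refine Finset.prod_congr ?_ fun _ _ => rfl
    ext i
    rw [Finset.mem_inter, Finset.mem_erase]
    exact ⟨fun h => h.2, fun h => ⟨⟨fun h' => hi₀ (h' ▸ h), Finset.mem_univ _⟩, h⟩⟩
  have htS : t i₀ ∈ S := by
    refine hS.root G hGc _ hvt₀.le ?_ ?_
    · rw [hG, eval_mul, hFr, mul_zero]
    · rw [hG, derivative_C_mul, eval_mul, eval_C, map_mul, hFd, map_inv₀]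
      exact inv_mul_cancel₀ ((Valuation.ne_zero_iff v).mpr hw0)
  refine ⟨c, hcX, ?_, ?_⟩
  · rw [Units.val_inv_eq_inv_val, ← ht]; exact htS
  · rw [Units.val_inv_eq_inv_val, ← ht]; exact hvt₀

/-- **Elements of the henselization become monomials.** `a ∈ L(τ)`, `τ` the root with `v τ < 1` of a
monic `P` with integral coefficients, `v(P(0)) < 1`, `v(P'(0)) = 1`: there is a finite list of
nonzero elements of `L` such that, as soon as they are monomials in a henselian ring `S`, so is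
`a`, and `τ ∈ S`. -/
theorem mono_of_list [IsAlgClosed M] [Infinite L] {P : L[X]} (hP : P.Monic)
    (hPO : ∀ i, v (algebraMap L M (P.coeff i)) ≤ 1) (h0 : v (algebraMap L M (P.coeff 0)) < 1)
    (h1 : v (algebraMap L M (P.coeff 1)) = 1) {τ : M} (hτ : aeval τ P = 0) (hτ1 : v τ < 1)
    {a : M} (ha : a ∈ IntermediateField.adjoin L {τ}) (ha0 : a ≠ 0) :
    ∃ Z : Finset L, (∀ z ∈ Z, z ≠ 0) ∧ ∀ (S : Subring M) (U : Subgroup Mˣ), HCl v S →
      (∀ x ∈ U, v (x : M) ≤ 1 → (x : M) ∈ S) → (∀ z ∈ Z, MonoX v S U (algebraMap L M z)) →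
      τ ∈ S ∧ MonoX v S U a := by
  classical
  obtain ⟨H, hHc, hHτ, hHx, hder, hsep⟩ := hens_data v hP hPO h0 h1 hτ hτ1
  have hint : IsIntegral L τ := ⟨P, hP, hτ⟩
  obtain ⟨E, hE⟩ : ∃ E : IntermediateField L M, E = IntermediateField.adjoin L {τ} := ⟨_, rfl⟩
  have hτE : τ ∈ E := by rw [hE]; exact IntermediateField.mem_adjoin_simple_self L τ
  have haE : a ∈ E := by rw [hE]; exact ha
  have : FiniteDimensional L E := by
    rw [hE]; exact IntermediateField.adjoin.finiteDimensional hint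
  have : Algebra.IsSeparable L E := by
    rw [hE]; exact (IntermediateField.isSeparable_adjoin_simple_iff_isSeparable L M).mpr hsep
  obtain ⟨τ', hτ'⟩ : ∃ t : E, (t : M) = τ := ⟨⟨τ, hτE⟩, rfl⟩
  obtain ⟨a', ha'⟩ : ∃ t : E, (t : M) = a := ⟨⟨a, haE⟩, rfl⟩
  obtain ⟨η, hη⟩ : ∃ t : E, t = aeval τ' H := ⟨_, rfl⟩
  have hση : ∀ σ : E →ₐ[L] M, σ η = aeval (σ τ') H := fun σ => by
    rw [hη, ← aeval_algHom_apply]
  have hPσ : ∀ σ : E →ₐ[L] M, aeval (σ τ') P = 0 := fun σ => by
    have e1 : aeval τ' P = 0 := by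
      apply Subtype.val_injective
      have e2 : ((aeval τ' P : E) : M) = aeval τ P := by
        rw [← hτ']; exact (aeval_algebraMap_apply M τ' P).symm
      rw [e2, hτ]; rfl
    rw [aeval_algHom_apply, e1, map_zero]
  have hval : ∀ t : E, E.val t = (t : M) := fun t => rfl
  have hne : ∀ σ : E →ₐ[L] M, σ ≠ E.val → σ τ' ≠ τ := by
    intro σ hσ h
    apply hσ
    refine IntermediateField.algHom_ext_of_eq_adjoin L hE fun x hx => ?_
    have e1 : ∀ hxE : x ∈ E, (⟨x, hxE⟩ : E) = τ' := fun hxE =>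
      Subtype.ext ((Set.mem_singleton_iff.mp hx).trans hτ'.symm)
    rw [e1, h, hval, hτ']
  have hv1 : v (E.val η) = 1 := by
    rw [hση, hval, hτ']; exact hHτ
  have hv2 : ∀ σ : E →ₐ[L] M, σ ≠ E.val → v (σ η) < 1 := fun σ hσ => by
    rw [hση]; exact hHx _ (hPσ σ) (hne σ hσ)
  have ha'0 : a' ≠ 0 := fun h => ha0 (by rw [← ha', h]; rfl)
  have hσa : ∀ σ : E →ₐ[L] M, v (σ a') ≠ 0 := fun σ =>
    (Valuation.ne_zero_iff v).mpr (by rw [Ne, map_eq_zero]; exact ha'0)
  -- the exponent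
  obtain ⟨n, hn1, hn⟩ : ∃ n : ℕ, 1 ≤ n ∧ ∀ σ : E →ₐ[L] M, σ ≠ E.val →
      v (σ η) ^ n * v (σ a') ≠ v a := by
    have hva : v a ≠ 0 := (Valuation.ne_zero_iff v).mpr ha0
    have hfin : ∀ σ : E →ₐ[L] M, σ ≠ E.val →
        {n : ℕ | 1 ≤ n ∧ v (σ η) ^ n * v (σ a') = v a}.Finite := by
      intro σ hσ
      refine Set.Subsingleton.finite fun i hi j hj => ?_
      have e1 : v (σ η) ^ i = v (σ η) ^ j := mul_right_cancel₀ (hσa σ) (hi.2.trans hj.2.symm)
      have e3 : v (σ η) ≠ 0 := by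
        intro h
        have e4 := hi.2
        rw [h, zero_pow (by have := hi.1; omega), zero_mul] at e4
        exact hva e4.symm
      by_contra hij
      rcases lt_or_gt_of_ne hij with h | h
      · exact absurd e1 (pow_lt_pow_right_of_lt_one₀ (zero_lt_iff.mpr e3) (hv2 σ hσ) h).ne'
      · exact absurd e1 (pow_lt_pow_right_of_lt_one₀ (zero_lt_iff.mpr e3) (hv2 σ hσ) h).ne
    have hfin2 : (⋃ σ : {σ : E →ₐ[L] M // σ ≠ E.val},
        {n : ℕ | 1 ≤ n ∧ v ((σ : E →ₐ[L] M) η) ^ n * v ((σ : E →ₐ[L] M) a') = v a}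
        ).Finite := Set.finite_iUnion fun σ => hfin σ.1 σ.2
    obtain ⟨n, hn⟩ := (hfin2.union (Set.finite_singleton 0)).exists_notMem
    rw [Set.mem_union, not_or] at hn
    have hn0 : n ≠ 0 := fun h => hn.2 h
    refine ⟨n, Nat.one_le_iff_ne_zero.mpr hn0, fun σ hσ h => hn.1 ?_⟩
    exact Set.mem_iUnion.mpr ⟨⟨σ, hσ⟩, Nat.one_le_iff_ne_zero.mpr hn0, h⟩
  obtain ⟨b, hb⟩ : ∃ b : E, b = η ^ n * a' := ⟨_, rfl⟩
  have hEj : ∀ j, ∃ w : L, j ≤ Fintype.card (E →ₐ[L] M) →
      ∑ T ∈ Finset.powersetCard j Finset.univ, ∏ σ ∈ T, (σ : E →ₐ[L] M) b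
        = algebraMap L M w := fun j => by
    by_cases hj : j ≤ Fintype.card (E →ₐ[L] M)
    · obtain ⟨w, hw⟩ := esymm_conj (L := L) b hj
      exact ⟨w, fun _ => hw⟩
    · exact ⟨0, fun h => absurd h hj⟩
  choose w hw using hEj
  refine ⟨((Finset.range (Fintype.card (E →ₐ[L] M) + 1)).image w ∪
    (Finset.range (P.natDegree + 1)).image P.coeff).erase 0,
    fun z hz => Finset.ne_of_mem_erase hz, fun S U hS hU hZ => ?_⟩
  have hZw : ∀ j, j ≤ Fintype.card (E →ₐ[L] M) → w j ≠ 0 →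
      MonoX v S U (algebraMap L M (w j)) := fun j hj h => hZ _ (Finset.mem_erase.mpr ⟨h,
    Finset.mem_union_left _ (Finset.mem_image_of_mem w (Finset.mem_range.mpr (by omega)))⟩)
  have hPS : ∀ i, algebraMap L M (P.coeff i) ∈ S := by
    intro i
    by_cases h : P.coeff i = 0
    · rw [h, map_zero]; exact zero_mem S
    · have hi : i ≤ P.natDegree := le_natDegree_of_ne_zero h
      exact (hZ _ (Finset.mem_erase.mpr ⟨h, Finset.mem_union_right _
        (Finset.mem_image_of_mem _ (Finset.mem_range.mpr (by omega)))⟩)).mem hU (hPO i)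
  have hτS : τ ∈ S := by
    refine hS.root (P.map (algebraMap L M)) (fun i => ?_) τ hτ1.le ?_ ?_
    · rw [coeff_map]; exact hPS i
    · rw [eval_map_algebraMap]; exact hτ
    · rw [derivative_map, eval_map_algebraMap]; exact hder
  have hHS : aeval τ H ∈ S := by
    rw [aeval_eq_sum_range]
    refine sum_mem fun i _ => ?_
    rw [Algebra.smul_def, hHc]
    exact mul_mem (hPS _) (pow_mem hτS i)
  have hkey : MonoX v S U (E.val b) := by
    refine root_core hS hU (fun σ : E →ₐ[L] M => σ b) E.val ?_ ?_ ?_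
    · change E.val b ≠ 0
      rw [hb, map_mul, map_pow]
      refine mul_ne_zero (pow_ne_zero _ fun h => ?_) ?_
      · rw [h, map_zero] at hv1; exact zero_ne_one hv1
      · rw [hval, ha']; exact ha0
    · intro σ hσ
      change v (σ b) ≠ v (E.val b)
      rw [hb, map_mul, map_pow, map_mul, map_pow, map_mul, map_pow, map_mul, map_pow, hv1,
        one_pow, one_mul, hval, ha']
      exact hn σ hσ
    · intro j hj
      change ∑ T ∈ Finset.powersetCard j Finset.univ, ∏ σ ∈ T, (σ : E →ₐ[L] M) b = 0 ∨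
        MonoX v S U (∑ T ∈ Finset.powersetCard j Finset.univ, ∏ σ ∈ T, (σ : E →ₐ[L] M) b)
      rw [hw j hj]
      by_cases h : w j = 0
      · left; rw [h, map_zero]
      · right; exact hZw j hj h
  refine ⟨hτS, ?_⟩
  have e1 : a = E.val b * ((aeval τ H)⁻¹) ^ n := by
    have e2 : aeval τ H ≠ 0 := fun h => by rw [h, map_zero] at hHτ; exact zero_ne_one hHτ
    rw [hb, map_mul, map_pow, hση, hval, hτ', hval, ha', inv_pow]
    field_simp
  rw [e1]
  refine hkey.mul_unit (pow_mem (hS.inv _ hHS hHτ) n) ?_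
  rw [map_pow, map_inv₀, hHτ, inv_one, one_pow]

end

end Pool.Agent.ALL7
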