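import Pool.Agent.Lib.ALL_h7.Plus

/-!
# Split extensions: the one root lemma and the monomial lemma for fields with an isolating element

`Iso v E η`: `v η = 1` (multiplicative notation) and `v (σ η) < 1` for every other embedding `σ` of
`E` over `L`. `L(τ)` has one (`τ` a simple residue root), and composites have one.
-/

set_option autoImplicit false

open Polynomial

namespace Pool.Agent.ALL7

section

variable {Γ₀ : Type*} [LinearOrderedCommGroupWithZero Γ₀] {L M : Type*} [Field L] [Field M]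
  [Algebra L M] (v : Valuation M Γ₀)

/-- `η` is isolating in `E / L`. -/
structure Iso (E : IntermediateField L M) (η : E) : Prop where
  one : v (η : M) = 1
  lt : ∀ σ : E →ₐ[L] M, σ ≠ E.val → v (σ η) < 1

/-- Simple residue roots give isolating elements. -/
theorem iso_simple {P : L[X]} (hP : P.Monic)
    (hPO : ∀ i, v (algebraMap L M (P.coeff i)) ≤ 1) (h0 : v (algebraMap L M (P.coeff 0)) < 1)
    (h1 : v (algebraMap L M (P.coeff 1)) = 1) {τ : M} (hτ : aeval τ P = 0) (hτ1 : v τ < 1) :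
    FiniteDimensional L (IntermediateField.adjoin L {τ}) ∧
    Algebra.IsSeparable L (IntermediateField.adjoin L {τ}) ∧
    ∃ H : L[X], (∀ i, H.coeff i = P.coeff (i + 1)) ∧
      ∃ η : IntermediateField.adjoin L {τ}, (η : M) = aeval τ H ∧ Iso v _ η := by
  classical
  obtain ⟨H, hHc, hHτ, hHx, hder, hsep⟩ := hens_data v hP hPO h0 h1 hτ hτ1
  have hint : IsIntegral L τ := ⟨P, hP, hτ⟩
  obtain ⟨E, hE⟩ : ∃ E : IntermediateField L M, E = IntermediateField.adjoin L {τ} := ⟨_, rfl⟩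
  have hτE : τ ∈ E := by rw [hE]; exact IntermediateField.mem_adjoin_simple_self L τ
  have hfd : FiniteDimensional L E := by
    rw [hE]; exact IntermediateField.adjoin.finiteDimensional hint
  have hse : Algebra.IsSeparable L E := by
    rw [hE]; exact (IntermediateField.isSeparable_adjoin_simple_iff_isSeparable L M).mpr hsep
  obtain ⟨τ', hτ'⟩ : ∃ t : E, (t : M) = τ := ⟨⟨τ, hτE⟩, rfl⟩
  obtain ⟨η, hη⟩ : ∃ t : E, t = aeval τ' H := ⟨_, rfl⟩
  have hση : ∀ σ : E →ₐ[L] M, σ η = aeval (σ τ') H := fun σ => by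
    rw [hη, ← aeval_algHom_apply]
  have hPσ : ∀ σ : E →ₐ[L] M, aeval (σ τ') P = 0 := fun σ => by
    have e1 : aeval τ' P = 0 := by
      apply Subtype.val_injective
      have e2 : ((aeval τ' P : E) : M) = aeval τ P := by
        rw [← hτ']; exact (aeval_algebraMap_apply M τ' P).symm
      rw [e2, hτ]; rfl
    rw [aeval_algHom_apply, e1, map_zero]
  have hval : ∀ t : E, E.val t = (t : M) := fun t => rfl
  have hne : ∀ σ : E →ₐ[L] M, σ ≠ E.val → σ τ' ≠ τ := by
    intro σ hσ h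
    apply hσ
    refine IntermediateField.algHom_ext_of_eq_adjoin L hE fun x hx => ?_
    have e1 : ∀ hxE : x ∈ E, (⟨x, hxE⟩ : E) = τ' := fun hxE =>
      Subtype.ext ((Set.mem_singleton_iff.mp hx).trans hτ'.symm)
    rw [e1, h, hval, hτ']
  have hη1 : (η : M) = aeval τ H := by
    rw [← hval, hση, hval, hτ']
  subst hE
  exact ⟨hfd, hse, H, hHc, η, hη1, by rw [hη1]; exact hHτ, fun σ hσ => by
    rw [hση]; exact hHx _ (hPσ σ) (hne σ hσ)⟩

variable {v}

/-- Composites. -/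
theorem Iso.sup {E₁ E₂ : IntermediateField L M} {η₁ : E₁} {η₂ : E₂} (h₁ : Iso v E₁ η₁)
    (h₂ : Iso v E₂ η₂) : ∃ η : (E₁ ⊔ E₂ : IntermediateField L M),
      (η : M) = (η₁ : M) * (η₂ : M) ∧ Iso v (E₁ ⊔ E₂) η := by
  have hle₁ : E₁ ≤ E₁ ⊔ E₂ := le_sup_left
  have hle₂ : E₂ ≤ E₁ ⊔ E₂ := le_sup_right
  refine ⟨IntermediateField.inclusion hle₁ η₁ * IntermediateField.inclusion hle₂ η₂, rfl, ?_, ?_⟩
  · change v ((η₁ : M) * (η₂ : M)) = 1
    rw [map_mul, h₁.one, h₂.one, one_mul]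
  · intro σ hσ
    rw [map_mul, map_mul]
    obtain ⟨σ₁, hσ₁⟩ : ∃ σ₁ : E₁ →ₐ[L] M, σ₁ = σ.comp (IntermediateField.inclusion hle₁) :=
      ⟨_, rfl⟩
    obtain ⟨σ₂, hσ₂⟩ : ∃ σ₂ : E₂ →ₐ[L] M, σ₂ = σ.comp (IntermediateField.inclusion hle₂) :=
      ⟨_, rfl⟩
    have e1 : σ (IntermediateField.inclusion hle₁ η₁) = σ₁ η₁ := by rw [hσ₁]; rfl
    have e2 : σ (IntermediateField.inclusion hle₂ η₂) = σ₂ η₂ := by rw [hσ₂]; rfl
    rw [e1, e2]
    have hle1 : v (σ₁ η₁) ≤ 1 := by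
      by_cases h : σ₁ = E₁.val
      · rw [h]; exact h₁.one.le
      · exact (h₁.lt _ h).le
    have hle2 : v (σ₂ η₂) ≤ 1 := by
      by_cases h : σ₂ = E₂.val
      · rw [h]; exact h₂.one.le
      · exact (h₂.lt _ h).le
    by_cases h : σ₁ = E₁.val
    · have h' : σ₂ ≠ E₂.val := by
        intro h'
        apply hσ
        refine IntermediateField.algHom_ext_of_eq_adjoin L
          (S := E₁ ⊔ E₂) (s := (E₁ : Set M) ∪ (E₂ : Set M)) ?_ fun x hx => ?_
        · rw [IntermediateField.adjoin_union, IntermediateField.adjoin_self,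
            IntermediateField.adjoin_self]
        · rcases hx with hx | hx
          · have e3 := DFunLike.congr_fun hσ₁ (⟨x, hx⟩ : E₁)
            rw [h] at e3
            exact e3.symm
          · have e3 := DFunLike.congr_fun hσ₂ (⟨x, hx⟩ : E₂)
            rw [h'] at e3
            exact e3.symm
      calc v (σ₁ η₁) * v (σ₂ η₂) ≤ 1 * v (σ₂ η₂) := mul_le_mul' hle1 le_rfl
        _ < 1 := by rw [one_mul]; exact h₂.lt _ h'
    · calc v (σ₁ η₁) * v (σ₂ η₂) ≤ v (σ₁ η₁) * 1 := mul_le_mul' le_rfl hle2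
        _ < 1 := by rw [mul_one]; exact h₁.lt _ h

variable (v)

/-- **One root lemma** for split extensions. -/
theorem one_root_iso [IsAlgClosed M] [Infinite L] (E : IntermediateField L M)
    [FiniteDimensional L E] [Algebra.IsSeparable L E] (η : E) (hiso : Iso v E η)
    {ψ : M} (hψ : ψ ∈ E) {r : Γ₀} (hr : r ≠ 0) :
    ∃ N : L[X], (taylor ψ (N.map (algebraMap L M))).coeff 1 ≠ 0 ∧
      v ((taylor ψ (N.map (algebraMap L M))).coeff 0) <
        v ((taylor ψ (N.map (algebraMap L M))).coeff 1) * r ∧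
      ∀ j, 2 ≤ j → v ((taylor ψ (N.map (algebraMap L M))).coeff j) * r ^ j <
        v ((taylor ψ (N.map (algebraMap L M))).coeff 1) * r := by
  classical
  obtain ⟨ψ', hψ'⟩ : ∃ t : E, (t : M) = ψ := ⟨⟨ψ, hψ⟩, rfl⟩
  have hval : ∀ t : E, E.val t = (t : M) := fun t => rfl
  have hv1 : v (E.val η) = 1 := hiso.one
  have hv2 : ∀ σ : E →ₐ[L] M, σ ≠ E.val → v (σ η) < 1 := hiso.lt
  -- the exponent
  have hr0 : 0 < r := zero_lt_iff.mpr hr
  obtain ⟨n, hn1, hn⟩ : ∃ n : ℕ, 1 ≤ n ∧ ∀ σ : E →ₐ[L] M, σ ≠ E.val →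
      v (σ η) ^ n * max r (v (σ ψ' - ψ)) ≠ r := by
    have hfin : ∀ σ : E →ₐ[L] M, σ ≠ E.val →
        {n : ℕ | 1 ≤ n ∧ v (σ η) ^ n * max r (v (σ ψ' - ψ)) = r}.Finite := by
      intro σ hσ
      refine Set.Subsingleton.finite fun a ha b hb => ?_
      have e1 : v (σ η) ^ a = v (σ η) ^ b := by
        have e2 : max r (v (σ ψ' - ψ)) ≠ 0 := (lt_of_lt_of_le hr0 (le_max_left _ _)).ne'
        exact mul_right_cancel₀ e2 (ha.2.trans hb.2.symm)
      have e3 : v (σ η) ≠ 0 := by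
        intro h
        have e4 := ha.2
        rw [h, zero_pow (by have := ha.1; omega), zero_mul] at e4
        exact hr e4.symm
      by_contra hab
      rcases lt_or_gt_of_ne hab with h | h
      · exact absurd e1 (pow_lt_pow_right_of_lt_one₀ (zero_lt_iff.mpr e3) (hv2 σ hσ) h).ne'
      · exact absurd e1 (pow_lt_pow_right_of_lt_one₀ (zero_lt_iff.mpr e3) (hv2 σ hσ) h).ne
    have hfin2 : (⋃ σ : {σ : E →ₐ[L] M // σ ≠ E.val},
        {n : ℕ | 1 ≤ n ∧ v ((σ : E →ₐ[L] M) η) ^ n * max r (v ((σ : E →ₐ[L] M) ψ' - ψ)) = r}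
        ).Finite := Set.finite_iUnion fun σ => hfin σ.1 σ.2
    obtain ⟨n, hn⟩ := (hfin2.union (Set.finite_singleton 0)).exists_notMem
    rw [Set.mem_union, not_or] at hn
    have hn0 : n ≠ 0 := fun h => hn.2 h
    refine ⟨n, Nat.one_le_iff_ne_zero.mpr hn0, fun σ hσ h => hn.1 ?_⟩
    exact Set.mem_iUnion.mpr ⟨⟨σ, hσ⟩, Nat.one_le_iff_ne_zero.mpr hn0, h⟩
  -- the core
  have hle : ∀ σ : E →ₐ[L] M, v (σ η) ≤ 1 := fun σ => by
    by_cases hσ : σ = E.val
    · rw [hσ, hv1]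
    · exact (hv2 σ hσ).le
  have hc0 : v ((E.val η) ^ n) = 1 := by rw [map_pow, hv1, one_pow]
  obtain ⟨m, hm, hcore⟩ := core (v := v) hr (fun σ : E →ₐ[L] M => (σ η) ^ n)
    (fun σ => σ ψ' - ψ) E.val
    (fun h => by
      have e1 : v ((E.val η) ^ n) = 0 := by
        have e2 : (E.val η) ^ n = 0 := h
        rw [e2, map_zero]
      rw [hc0] at e1; exact one_ne_zero e1)
    (by
      rw [hval, hψ', sub_self])
    (fun σ hσ h => by
      unfold gl at h
      rw [hc0, one_mul, map_pow] at h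
      exact hn σ hσ h)
    (fun σ h => by
      unfold gl at h
      rw [hc0, one_mul, map_pow] at h
      have e1 : v (σ η) ^ n * max r (v (σ ψ' - ψ)) ≤ 1 * max r (v (σ ψ' - ψ)) :=
        mul_le_mul' (pow_le_one' (hle σ) n) le_rfl
      rw [one_mul] at e1
      rcases lt_max_iff.mp (lt_of_lt_of_le h e1) with e2 | e2
      · exact absurd e2 (lt_irrefl _)
      · exact e2)
  -- rationality
  obtain ⟨N, hN⟩ := exists_map_of_eval (L := L)
    (∑ T ∈ Finset.powersetCard m Finset.univ,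
      ∏ σ ∈ T, (C (((σ : E →ₐ[L] M) η) ^ n) * (X - C (σ ψ')))) fun z => by
      obtain ⟨w, hw⟩ := esymm_conj (L := L) (η ^ n * (algebraMap L E z - ψ')) hm
      refine ⟨w, ?_⟩
      rw [← hw, eval_finsetSum]
      refine Finset.sum_congr rfl fun T _ => ?_
      rw [eval_prod]
      refine Finset.prod_congr rfl fun σ _ => ?_
      rw [eval_mul, eval_C, eval_sub, eval_X, eval_C, map_mul, map_pow, map_sub, AlgHom.commutes]
  refine ⟨N, ?_⟩
  rw [hN]
  refine hcore _ ?_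
  have e1 : ∀ Q : M[X], taylor ψ Q = taylorAlgHom ψ Q := fun Q => rfl
  rw [e1, map_sum]
  refine Finset.sum_congr rfl fun T _ => ?_
  rw [map_prod]
  refine Finset.prod_congr rfl fun σ _ => ?_
  rw [← e1, taylor_mul, taylor_C, map_sub, taylor_X, taylor_C, lf, C_sub]
  ring

/-- **Elements of split extensions become monomials.** -/
theorem mono_of_list_iso [IsAlgClosed M] [Infinite L] (E : IntermediateField L M)
    [FiniteDimensional L E] [Algebra.IsSeparable L E] (η : E) (hiso : Iso v E η)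
    {a : M} (ha : a ∈ E) (ha0 : a ≠ 0) :
    ∃ Z : Finset L, (∀ z ∈ Z, z ≠ 0) ∧ ∀ (S : Subring M) (U : Subgroup Mˣ), HCl v S →
      (∀ x ∈ U, v (x : M) ≤ 1 → (x : M) ∈ S) → (η : M) ∈ S →
      (∀ z ∈ Z, MonoX v S U (algebraMap L M z)) → MonoX v S U a := by
  classical
  obtain ⟨a', ha'⟩ : ∃ t : E, (t : M) = a := ⟨⟨a, ha⟩, rfl⟩
  have hval : ∀ t : E, E.val t = (t : M) := fun t => rfl
  have hv1 : v (E.val η) = 1 := hiso.one
  have hv2 : ∀ σ : E →ₐ[L] M, σ ≠ E.val → v (σ η) < 1 := hiso.lt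
  have ha'0 : a' ≠ 0 := fun h => ha0 (by rw [← ha', h]; rfl)
  have hσa : ∀ σ : E →ₐ[L] M, v (σ a') ≠ 0 := fun σ =>
    (Valuation.ne_zero_iff v).mpr (by rw [Ne, map_eq_zero]; exact ha'0)
  -- the exponent
  obtain ⟨n, hn1, hn⟩ : ∃ n : ℕ, 1 ≤ n ∧ ∀ σ : E →ₐ[L] M, σ ≠ E.val →
      v (σ η) ^ n * v (σ a') ≠ v a := by
    have hva : v a ≠ 0 := (Valuation.ne_zero_iff v).mpr ha0
    have hfin : ∀ σ : E →ₐ[L] M, σ ≠ E.val →
        {n : ℕ | 1 ≤ n ∧ v (σ η) ^ n * v (σ a') = v a}.Finite := by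
      intro σ hσ
      refine Set.Subsingleton.finite fun i hi j hj => ?_
      have e1 : v (σ η) ^ i = v (σ η) ^ j := mul_right_cancel₀ (hσa σ) (hi.2.trans hj.2.symm)
      have e3 : v (σ η) ≠ 0 := by
        intro h
        have e4 := hi.2
        rw [h, zero_pow (by have := hi.1; omega), zero_mul] at e4
        exact hva e4.symm
      by_contra hij
      rcases lt_or_gt_of_ne hij with h | h
      · exact absurd e1 (pow_lt_pow_right_of_lt_one₀ (zero_lt_iff.mpr e3) (hv2 σ hσ) h).ne'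
      · exact absurd e1 (pow_lt_pow_right_of_lt_one₀ (zero_lt_iff.mpr e3) (hv2 σ hσ) h).ne
    have hfin2 : (⋃ σ : {σ : E →ₐ[L] M // σ ≠ E.val},
        {n : ℕ | 1 ≤ n ∧ v ((σ : E →ₐ[L] M) η) ^ n * v ((σ : E →ₐ[L] M) a') = v a}
        ).Finite := Set.finite_iUnion fun σ => hfin σ.1 σ.2
    obtain ⟨n, hn⟩ := (hfin2.union (Set.finite_singleton 0)).exists_notMem
    rw [Set.mem_union, not_or] at hn
    have hn0 : n ≠ 0 := fun h => hn.2 h
    refine ⟨n, Nat.one_le_iff_ne_zero.mpr hn0, fun σ hσ h => hn.1 ?_⟩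
    exact Set.mem_iUnion.mpr ⟨⟨σ, hσ⟩, Nat.one_le_iff_ne_zero.mpr hn0, h⟩
  obtain ⟨b, hb⟩ : ∃ b : E, b = η ^ n * a' := ⟨_, rfl⟩
  have hEj : ∀ j, ∃ w : L, j ≤ Fintype.card (E →ₐ[L] M) →
      ∑ T ∈ Finset.powersetCard j Finset.univ, ∏ σ ∈ T, (σ : E →ₐ[L] M) b
        = algebraMap L M w := fun j => by
    by_cases hj : j ≤ Fintype.card (E →ₐ[L] M)
    · obtain ⟨w, hw⟩ := esymm_conj (L := L) b hj
      exact ⟨w, fun _ => hw⟩
    · exact ⟨0, fun h => absurd h hj⟩
  choose w hw using hEj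
  refine ⟨((Finset.range (Fintype.card (E →ₐ[L] M) + 1)).image w).erase 0,
    fun z hz => Finset.ne_of_mem_erase hz, fun S U hS hU hηS hZ => ?_⟩
  have hZw : ∀ j, j ≤ Fintype.card (E →ₐ[L] M) → w j ≠ 0 →
      MonoX v S U (algebraMap L M (w j)) := fun j hj h => hZ _ (Finset.mem_erase.mpr ⟨h,
    Finset.mem_image_of_mem w (Finset.mem_range.mpr (by omega))⟩)
  have hkey : MonoX v S U (E.val b) := by
    refine root_core hS hU (fun σ : E →ₐ[L] M => σ b) E.val ?_ ?_ ?_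
    · rw [hb, map_mul, map_pow]
      refine mul_ne_zero (pow_ne_zero _ fun h => ?_) ?_
      · rw [h, map_zero] at hv1; exact zero_ne_one hv1
      · rw [hval, ha']; exact ha0
    · intro σ hσ
      rw [hb, map_mul, map_pow, map_mul, map_pow, map_mul, map_pow, map_mul, map_pow, hv1,
        one_pow, one_mul, hval, ha']
      exact hn σ hσ
    · intro j hj
      change ∑ T ∈ Finset.powersetCard j Finset.univ, ∏ σ ∈ T, (σ : E →ₐ[L] M) b = 0 ∨
        MonoX v S U (∑ T ∈ Finset.powersetCard j Finset.univ, ∏ σ ∈ T, (σ : E →ₐ[L] M) b)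
      rw [hw j hj]
      by_cases h : w j = 0
      · left; rw [h, map_zero]
      · right; exact hZw j hj h
  have e1 : a = E.val b * ((η : M)⁻¹) ^ n := by
    have e2 : (η : M) ≠ 0 := fun h => by
      have := hiso.one
      rw [h, map_zero] at this; exact zero_ne_one this
    rw [hb, map_mul, map_pow, hval, hval, ha', inv_pow]
    field_simp
  rw [e1]
  refine hkey.mul_unit (pow_mem (hS.inv _ hηS hiso.one) n) ?_
  rw [map_pow, map_inv₀, hiso.one, inv_one, one_pow]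

end

end Pool.Agent.ALL7
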